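import Mathlib

set_option autoImplicit false

/-!
An approximate form of Forster's theorem (radial isotropic position) for families of vectors that
are unions of bases.
-/

namespace Run7.h284.SR

open Finset Matrix

/-- Hadamard's inequality -/
theorem hadamard {r : ℕ} (M : Matrix (Fin r) (Fin r) ℝ) :
    |M.det| ≤ ∏ a, Real.sqrt (M a ⬝ᵥ M a) := by
  classical
  have hf : Fact (Module.finrank ℝ (EuclideanSpace ℝ (Fin r)) = r) := ⟨by simp⟩
  set o := (EuclideanSpace.basisFun (Fin r) ℝ).toBasis.orientation with ho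
  have h1 := o.abs_volumeForm_apply_le (fun a => WithLp.toLp 2 (M a))
  rw [o.volumeForm_robust (EuclideanSpace.basisFun (Fin r) ℝ) rfl, Module.Basis.det_apply] at h1
  have h2 : ((EuclideanSpace.basisFun (Fin r) ℝ).toBasis.toMatrix
      (fun a => WithLp.toLp 2 (M a))) = M.transpose := by
    ext i j
    simp [Module.Basis.toMatrix_apply]
  rw [h2, Matrix.det_transpose] at h1
  refine h1.trans (le_of_eq ?_)
  refine Finset.prod_congr rfl fun a _ => ?_
  rw [EuclideanSpace.norm_eq]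
  congr 1
  simp only [dotProduct, Real.norm_eq_abs, sq_abs]
  exact Finset.sum_congr rfl fun i _ => by ring

theorem self_pos {r : ℕ} {v : Fin r → ℝ} (hv : v ≠ 0) : 0 < v ⬝ᵥ v := by
  rcases (Finset.sum_nonneg fun i _ => mul_self_nonneg (v i) :
    0 ≤ ∑ i, v i * v i).lt_or_eq with h | h
  · exact h
  · exact absurd (dotProduct_self_eq_zero.mp h.symm) hv

theorem self_nonneg {r : ℕ} (v : Fin r → ℝ) : 0 ≤ v ⬝ᵥ v :=
  Finset.sum_nonneg fun i _ => mul_self_nonneg (v i)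

/-- Cauchy-Schwarz -/
theorem cs {r : ℕ} (v w : Fin r → ℝ) : (v ⬝ᵥ w) ^ 2 ≤ (v ⬝ᵥ v) * (w ⬝ᵥ w) := by
  have := Finset.sum_mul_sq_le_sq_mul_sq Finset.univ v w
  simp only [dotProduct]
  simpa [sq] using this

section
variable {r : ℕ} {β : Type*} [Fintype β]

/-- the functional -/
noncomputable def Phi (X : β → Matrix (Fin r) (Fin r) ℝ) (B : Matrix (Fin r) (Fin r) ℝ) : ℝ :=
  (∑ b, ∑ a, (1 / 2) * Real.log ((B *ᵥ (X b a)) ⬝ᵥ (B *ᵥ (X b a)))) -
    (Fintype.card β : ℝ) * Real.log |B.det|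

theorem mulVec_ne {B : Matrix (Fin r) (Fin r) ℝ} (hB : B.det ≠ 0) {v : Fin r → ℝ} (hv : v ≠ 0) :
    B *ᵥ v ≠ 0 := by
  intro h
  exact hv (Matrix.eq_zero_of_mulVec_eq_zero hB h)

theorem row_ne {M : Matrix (Fin r) (Fin r) ℝ} (hM : M.det ≠ 0) (a : Fin r) : M a ≠ 0 := by
  intro h
  exact hM (Matrix.det_eq_zero_of_row_eq_zero a (fun j => congrFun h j))

theorem Phi_ge (X : β → Matrix (Fin r) (Fin r) ℝ) (hX : ∀ b, (X b).det ≠ 0)
    (B : Matrix (Fin r) (Fin r) ℝ) (hB : B.det ≠ 0) :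
    ∑ b, Real.log |(X b).det| ≤ Phi X B := by
  have key : ∀ b, Real.log |(X b).det| + Real.log |B.det| ≤
      ∑ a, (1 / 2) * Real.log ((B *ᵥ (X b a)) ⬝ᵥ (B *ᵥ (X b a))) := by
    intro b
    have h1 := hadamard (X b * B.transpose)
    have hrow : ∀ a, (X b * B.transpose) a = B *ᵥ (X b a) := by
      intro a
      ext i
      simp only [Matrix.mul_apply, Matrix.transpose_apply, Matrix.mulVec, dotProduct]
      exact Finset.sum_congr rfl fun j _ => by ring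
    simp only [hrow] at h1
    rw [Matrix.det_mul, Matrix.det_transpose, abs_mul] at h1
    have hp : ∀ a, 0 < (B *ᵥ (X b a)) ⬝ᵥ (B *ᵥ (X b a)) := fun a =>
      self_pos (mulVec_ne hB (row_ne (hX b) a))
    have h2 := Real.log_le_log (by
      have := abs_pos.2 (hX b)
      have := abs_pos.2 hB
      positivity) h1
    rw [Real.log_mul (abs_ne_zero.2 (hX b)) (abs_ne_zero.2 hB), Real.log_prod (fun a _ =>
      (Real.sqrt_pos.2 (hp a)).ne')] at h2
    refine h2.trans (le_of_eq ?_)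
    refine Finset.sum_congr rfl fun a _ => ?_
    rw [Real.log_sqrt (hp a).le]
    ring
  have h3 := Finset.sum_le_sum fun b (_ : b ∈ (Finset.univ : Finset β)) => key b
  rw [Finset.sum_add_distrib, Finset.sum_const, Finset.card_univ, nsmul_eq_mul] at h3
  unfold Phi
  linarith

/-- the update of the matrix -/
def upd (w : Fin r → ℝ) (t : ℝ) (B : Matrix (Fin r) (Fin r) ℝ) : Matrix (Fin r) (Fin r) ℝ :=
  (1 + replicateCol Unit (t • w) * replicateRow Unit w) * B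

theorem upd_det (w : Fin r → ℝ) (hw : w ⬝ᵥ w = 1) (t : ℝ) (B : Matrix (Fin r) (Fin r) ℝ) :
    (upd w t B).det = (1 + t) * B.det := by
  unfold upd
  rw [Matrix.det_mul, Matrix.det_one_add_replicateCol_mul_replicateRow, dotProduct_smul, hw]
  simp

theorem upd_mulVec (w : Fin r → ℝ) (t : ℝ) (B : Matrix (Fin r) (Fin r) ℝ) (x : Fin r → ℝ) :
    upd w t B *ᵥ x = B *ᵥ x + (t * (w ⬝ᵥ (B *ᵥ x))) • w := by
  unfold upd
  rw [← Matrix.mulVec_mulVec, Matrix.add_mulVec, Matrix.one_mulVec, ← Matrix.mulVec_mulVec]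
  congr 1
  ext i
  simp [Matrix.mulVec, dotProduct, replicateCol, replicateRow]
  ring

theorem upd_self (w : Fin r → ℝ) (hw : w ⬝ᵥ w = 1) (t : ℝ) (y : Fin r → ℝ) :
    (y + (t * (w ⬝ᵥ y)) • w) ⬝ᵥ (y + (t * (w ⬝ᵥ y)) • w) =
      y ⬝ᵥ y + (2 * t + t ^ 2) * (w ⬝ᵥ y) ^ 2 := by
  rw [dotProduct_add, add_dotProduct, add_dotProduct, smul_dotProduct, dotProduct_smul,
    smul_dotProduct, dotProduct_smul, hw, dotProduct_comm y w]
  simp only [smul_eq_mul]
  ring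

/-- **Approximate radial isotropic position.** -/
theorem forster (X : β → Matrix (Fin r) (Fin r) ℝ) (hX : ∀ b, (X b).det ≠ 0) :
    ∃ B : Matrix (Fin r) (Fin r) ℝ, B.det ≠ 0 ∧ ∀ w : Fin r → ℝ, w ⬝ᵥ w = 1 →
      (Fintype.card β : ℝ) / 2 ≤
        ∑ b, ∑ a, (w ⬝ᵥ (B *ᵥ (X b a))) ^ 2 / ((B *ᵥ (X b a)) ⬝ᵥ (B *ᵥ (X b a))) := by
  classical
  rcases isEmpty_or_nonempty β with hβ | hβ
  · exact ⟨1, by simp, fun w _ => by simp⟩
  set m : ℝ := (Fintype.card β : ℝ) with hm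
  have hm0 : 0 < m := by
    rw [hm]
    exact_mod_cast Fintype.card_pos
  set S : Set ℝ := {t | ∃ B : Matrix (Fin r) (Fin r) ℝ, B.det ≠ 0 ∧ t = Phi X B} with hS
  have hne : S.Nonempty := ⟨_, 1, by simp, rfl⟩
  have hbdd : BddBelow S := by
    refine ⟨∑ b, Real.log |(X b).det|, ?_⟩
    rintro _ ⟨B, hB, rfl⟩
    exact Phi_ge X hX B hB
  obtain ⟨_, ⟨B, hB, rfl⟩, hlt⟩ := Real.lt_sInf_add_pos hne (show 0 < m / 20 by positivity)
  refine ⟨B, hB, fun w hw => ?_⟩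
  have hB' : (upd w (1 / 4) B).det ≠ 0 := by
    rw [upd_det w hw]
    exact mul_ne_zero (by norm_num) hB
  have h1 : sInf S ≤ Phi X (upd w (1 / 4) B) := csInf_le hbdd ⟨_, hB', rfl⟩
  have h2 : Phi X (upd w (1 / 4) B) ≤ Phi X B + (9 / 32) *
      (∑ b, ∑ a, (w ⬝ᵥ (B *ᵥ (X b a))) ^ 2 / ((B *ᵥ (X b a)) ⬝ᵥ (B *ᵥ (X b a)))) -
      m * Real.log (5 / 4) := by
    unfold Phi
    rw [upd_det w hw, abs_mul, Real.log_mul (by norm_num) (abs_ne_zero.2 hB)]
    have e1 : |(1 : ℝ) + 1 / 4| = 5 / 4 := by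
      rw [abs_of_pos (by norm_num)]
      norm_num
    rw [e1]
    have h3 : ∀ b a, (1 / 2) * Real.log ((upd w (1 / 4) B *ᵥ (X b a)) ⬝ᵥ
        (upd w (1 / 4) B *ᵥ (X b a))) ≤
        (1 / 2) * Real.log ((B *ᵥ (X b a)) ⬝ᵥ (B *ᵥ (X b a))) + (9 / 32) *
        ((w ⬝ᵥ (B *ᵥ (X b a))) ^ 2 / ((B *ᵥ (X b a)) ⬝ᵥ (B *ᵥ (X b a)))) := by
      intro b a
      have hp := self_pos (mulVec_ne hB (row_ne (hX b) a))
      rw [upd_mulVec, upd_self w hw]
      set q := (B *ᵥ (X b a)) ⬝ᵥ (B *ᵥ (X b a)) with hq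
      set s := (w ⬝ᵥ (B *ᵥ (X b a))) ^ 2 with hs
      have hs0 : 0 ≤ s := sq_nonneg _
      have e2 : q + (2 * (1 / 4) + (1 / 4) ^ 2) * s = q * (1 + (9 / 16) * (s / q)) := by
        field_simp
        ring
      have hpos : 0 < 1 + (9 / 16) * (s / q) := by positivity
      rw [e2, Real.log_mul hp.ne' hpos.ne']
      have h4 := Real.log_le_sub_one_of_pos hpos
      linarith
    have h5 := Finset.sum_le_sum fun b (_ : b ∈ (Finset.univ : Finset β)) =>
      Finset.sum_le_sum fun a (_ : a ∈ (Finset.univ : Finset (Fin r))) => h3 b a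
    simp only [Finset.sum_add_distrib, ← Finset.mul_sum] at h5 ⊢
    rw [← hm]
    linarith
  have h6 : (1 : ℝ) / 5 ≤ Real.log (5 / 4) := by
    have := Real.one_sub_inv_le_log_of_pos (show (0 : ℝ) < 5 / 4 by norm_num)
    norm_num at this ⊢
    linarith
  have h7 : m * (1 / 5) ≤ m * Real.log (5 / 4) := mul_le_mul_of_nonneg_left h6 hm0.le
  linarith

end

end Run7.h284.SR
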