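import Pool.Agent.Run7.h284.SR.Rect
import Pool.Agent.R533.VC.Err

set_option autoImplicit false

/-!
Protocols for functions of small sign rank.
-/

namespace Run7.h284.SR

open Finset Matrix Pool.Agent.H630R2.LR Pool.Agent.R533.VC

theorem logb_nonneg (n : ℕ) : 0 ≤ Real.logb 2 (n : ℝ) := by
  rcases Nat.eq_zero_or_pos n with rfl | h
  · simp
  · exact Real.logb_nonneg (by norm_num) (by exact_mod_cast h)

theorem clog_le (n : ℕ) : (Nat.clog 2 n : ℝ) ≤ Real.logb 2 n + 1 := by
  rcases Nat.lt_or_ge 1 n with h | h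
  · have h1 : 0 < Nat.clog 2 n := Nat.clog_pos (by norm_num) h
    have h2 := Nat.pow_pred_clog_lt_self (b := 2) (by norm_num) h
    have h3 : ((2 : ℝ) ^ (Nat.clog 2 n - 1 : ℕ)) ≤ n := by
      have : (2 : ℕ) ^ (Nat.clog 2 n - 1) ≤ n := by
        simpa [Nat.pred_eq_sub_one] using h2.le
      exact_mod_cast this
    have h4 : ((Nat.clog 2 n - 1 : ℕ) : ℝ) ≤ Real.logb 2 n := by
      rw [Real.le_logb_iff_rpow_le (by norm_num) (by positivity), Real.rpow_natCast]
      exact h3
    have h5 : ((Nat.clog 2 n - 1 : ℕ) : ℝ) = (Nat.clog 2 n : ℝ) - 1 := by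
      push_cast [Nat.cast_sub h1]; ring
    linarith
  · rw [Nat.clog_of_right_le_one h]
    have := logb_nonneg n
    simp only [Nat.cast_zero]
    linarith

/-- number of errors of the constant `c` on a rectangle -/
theorem sum_errors {X Y : Type*} (f : X → Y → Bool) (c : Bool) (S : Finset X) (T : Finset Y)
    (K : ℝ) :
    ∑ x ∈ S, ∑ y ∈ T, (if f x y = c then (1 : ℝ) else 1 - K) =
      (S.card : ℝ) * T.card - K * ((∑ x ∈ S, (T.filter (fun y => f x y ≠ c)).card : ℕ) : ℝ) := by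
  have h1 : ∀ x, ∑ y ∈ T, (if f x y = c then (1 : ℝ) else 1 - K) =
      T.card - K * ((T.filter (fun y => f x y ≠ c)).card : ℝ) := by
    intro x
    rw [card_filter, card_eq_sum_ones]
    push_cast
    rw [mul_sum, ← sum_sub_distrib]
    refine sum_congr rfl fun y _ => ?_
    by_cases h : f x y = c
    · simp [h]
    · simp [h]
  rw [sum_congr rfl (fun x _ => h1 x), sum_sub_distrib, sum_const, nsmul_eq_mul, ← mul_sum]
  push_cast
  ring

theorem final_num (t a b Q : ℝ) (hQ : 8 * Real.exp t ≤ Q) (hb : 0 ≤ b)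
    (h : Real.exp (-t) / 2 * a ≤ 4 * b) : a ≤ Q * b := by
  have e : Real.exp t * Real.exp (-t) = 1 := by
    rw [← Real.exp_add, add_neg_cancel, Real.exp_zero]
  have h5 := mul_le_mul_of_nonneg_left h (Real.exp_pos t).le
  have h6 : a ≤ 8 * Real.exp t * b := by
    calc a = (Real.exp t * Real.exp (-t)) * a := by rw [e, one_mul]
      _ = 2 * (Real.exp t * (Real.exp (-t) / 2 * a)) := by ring
      _ ≤ 2 * (Real.exp t * (4 * b)) := by linarith
      _ = _ := by ring
  exact h6.trans (mul_le_mul_of_nonneg_right hQ hb)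

theorem rich_sign {X Y : Type*} [Fintype X] [Fintype Y] (F : X → Y → Bool) (s : ℕ)
    (p : X → Fin s → ℝ) (q : Y → Fin s → ℝ)
    (ht : ∀ x y, F x y = true → 0 < p x ⬝ᵥ q y) (hf : ∀ x y, F x y = false → p x ⬝ᵥ q y < 0)
    (u : ℝ) (hu : 4 ≤ u) (hu2 : 12 * ((comm F).rank + 1 : ℝ) ≤ Real.exp u) (Q : ℕ)
    (hQ : 8 * Real.exp (7 * (u * Real.sqrt (2 * s))) ≤ Q) : Rich F Q := by
  classical
  intro A B hA hB
  obtain ⟨c, S, hS, T, hT, hST⟩ := rect F p q A B hA hB (fun x _ y _ => ht x y)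
    (fun x _ y _ => hf x y) u hu
  rw [sum_errors] at hST
  set err : ℕ := ∑ x ∈ S, (T.filter (fun y => F x y ≠ c)).card with herr
  have hApos : (0 : ℝ) < A.card := by exact_mod_cast hA.card_pos
  have hBpos : (0 : ℝ) < B.card := by exact_mod_cast hB.card_pos
  have hexp : 0 < Real.exp (-(7 * (u * Real.sqrt (2 * s)))) := Real.exp_pos _
  have hpos : 0 < (S.card : ℝ) * T.card - Real.exp u / 3 * err :=
    lt_of_le_of_lt (by positivity) hST
  have herr0 : (0 : ℝ) ≤ err := Nat.cast_nonneg _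
  have h1 : 4 * ((comm F).rank + 1) * err ≤ S.card * T.card := by
    have : 4 * ((comm F).rank + 1 : ℝ) * err ≤ (S.card : ℝ) * T.card := by
      have h0 : 12 * ((comm F).rank + 1 : ℝ) * err ≤ Real.exp u * err :=
        mul_le_mul_of_nonneg_right hu2 herr0
      linarith
    exact_mod_cast this
  have hTne : T.Nonempty := by
    rcases T.eq_empty_or_nonempty with h | h
    · exfalso
      have h0 : (T.card : ℝ) = 0 := by rw [h, card_empty, Nat.cast_zero]
      have h00 : 0 ≤ Real.exp u / 3 * (err : ℝ) := mul_nonneg (by positivity) herr0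
      rw [h0, mul_zero] at hpos
      linarith
    · exact h
  obtain ⟨A', hA', B', hB', hv, hc⟩ := few_errors F S T hTne c (comm F).rank (rk_le F S T)
    (by rw [← herr]; exact h1)
  refine ⟨A', hA'.trans hS, B', hB'.trans hT, c, hv, ?_⟩
  have h2 : (S.card : ℝ) * T.card ≤ 4 * (A'.card * B'.card) := by exact_mod_cast hc
  have h3 : Real.exp (-(7 * (u * Real.sqrt (2 * s)))) / 2 * ((A.card : ℝ) * B.card) ≤
      4 * (A'.card * B'.card) := by
    have : 0 ≤ Real.exp u / 3 * (err : ℝ) := mul_nonneg (by positivity) herr0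
    linarith
  have h6 : (A.card : ℝ) * B.card ≤ Q * (A'.card * B'.card) :=
    final_num _ _ _ _ hQ (by positivity) h3
  exact_mod_cast h6

/-- The log-rank theorem with the square root of the sign rank. -/
theorem main {X Y : Type*} [Fintype X] [Fintype Y] (F : X → Y → Bool) (s : ℕ) (hs : 1 ≤ s)
    (p : X → Fin s → ℝ) (q : Y → Fin s → ℝ)
    (ht : ∀ x y, F x y = true → 0 < p x ⬝ᵥ q y) (hf : ∀ x y, F x y = false → p x ⬝ᵥ q y < 0) :
    ∃ c : ℕ, Proto F c ∧
      (c : ℝ) ≤ 200 * Real.sqrt s * (1 + Real.logb 2 ((comm F).rank : ℝ)) ^ 2 := by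
  set R := (comm F).rank with hR
  have hs1 : (1 : ℝ) ≤ s := by exact_mod_cast hs
  have hsq : 1 ≤ Real.sqrt s := by rwa [Real.one_le_sqrt]
  have hl : (0 : ℝ) ≤ Real.logb 2 (R : ℝ) := logb_nonneg R
  set L : ℝ := 1 + Real.logb 2 (R : ℝ) with hL
  have hL1 : 1 ≤ L := by linarith
  set u : ℝ := 4 + Real.log (R + 1) with hu
  have hlogR : 0 ≤ Real.log ((R : ℝ) + 1) := Real.log_nonneg (by
    have : (0 : ℝ) ≤ R := Nat.cast_nonneg _
    linarith)
  have hu4 : 4 ≤ u := by linarith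
  have hlog2 : Real.log 2 < 0.6931471808 := Real.log_two_lt_d9
  have hlog2' : 0.6931471803 < Real.log 2 := Real.log_two_gt_d9
  have hlogb : ∀ x : ℝ, Real.logb 2 x * Real.log 2 = Real.log x := by
    intro x
    rw [Real.logb, div_mul_cancel₀]
    linarith
  -- `log (R + 1) ≤ L log 2`
  have hlogR2 : Real.log ((R : ℝ) + 1) ≤ L * Real.log 2 := by
    rcases Nat.eq_zero_or_pos R with h | h
    · rw [h]
      simp only [Nat.cast_zero, zero_add, Real.log_one]
      positivity
    · have hR1 : (1 : ℝ) ≤ R := by exact_mod_cast h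
      rw [hL, add_mul, one_mul, hlogb, ← Real.log_mul (by norm_num) (by linarith)]
      exact Real.log_le_log (by linarith) (by linarith)
  have huL : u ≤ 4.7 * L := by nlinarith
  have hexpu : 12 * ((R : ℝ) + 1) ≤ Real.exp u := by
    rw [hu, Real.exp_add, Real.exp_log (by positivity)]
    have h1 := Real.quadratic_le_exp_of_nonneg (x := 4) (by norm_num)
    have h2 : (0 : ℝ) ≤ R := Nat.cast_nonneg _
    nlinarith
  have hsqrt2 : Real.sqrt (2 * s) ≤ 1.4143 * Real.sqrt s := by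
    rw [Real.sqrt_mul (by norm_num)]
    refine mul_le_mul_of_nonneg_right ?_ (by linarith)
    rw [Real.sqrt_le_left (by norm_num)]
    norm_num
  set τ : ℝ := u * Real.sqrt (2 * s) with hτ
  have hτ0 : 0 ≤ τ := by positivity
  have hτL : τ ≤ 6.65 * (Real.sqrt s * L) := by
    calc τ ≤ (4.7 * L) * (1.4143 * Real.sqrt s) :=
          mul_le_mul huL hsqrt2 (Real.sqrt_nonneg _) (by positivity)
      _ ≤ _ := by nlinarith [mul_pos (show (0 : ℝ) < L by linarith) (show (0 : ℝ) < Real.sqrt s by linarith)]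
  set Q : ℕ := ⌈8 * Real.exp (7 * τ)⌉₊ with hQ
  have hrich : Rich F Q := rich_sign F s p q ht hf u hu4 hexpu Q (Nat.le_ceil _)
  have hexp1 : 1 ≤ Real.exp (7 * τ) := Real.one_le_exp (by positivity)
  have hQle : (Q : ℝ) ≤ 9 * Real.exp (7 * τ) := by
    have := Nat.ceil_lt_add_one (show 0 ≤ 8 * Real.exp (7 * τ) by positivity)
    rw [← hQ] at this
    linarith
  have hQ1 : 1 ≤ Q := Nat.one_le_ceil_iff.2 (by positivity)
  have hQ1' : (1 : ℝ) ≤ Q := by exact_mod_cast hQ1
  have hnw := nw F Q hQ1 hrich (Nat.clog 2 (2 * R * Q + 2)) (Nat.le_pow_clog (by norm_num) _)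
  refine ⟨_, hnw, ?_⟩
  rw [← hR]
  set w := Nat.clog 2 (2 * R * Q + 2) with hw
  have hlogQ : Real.log ((2 * R * Q + 2 : ℕ) : ℝ) ≤ Real.log 2 + Real.log ((R : ℝ) + 1) +
      (Real.log 9 + 7 * τ) := by
    have hR0 : (0 : ℝ) ≤ R := Nat.cast_nonneg _
    have e1 : ((2 * R * Q + 2 : ℕ) : ℝ) ≤ 2 * (R + 1) * (9 * Real.exp (7 * τ)) := by
      push_cast
      have : 2 * ((R : ℝ) + 1) * Q ≤ 2 * (R + 1) * (9 * Real.exp (7 * τ)) :=
        mul_le_mul_of_nonneg_left hQle (by positivity)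
      nlinarith
    refine (Real.log_le_log (by positivity) e1).trans (le_of_eq ?_)
    rw [Real.log_mul (by positivity) (by positivity), Real.log_mul (by norm_num) (by positivity),
      Real.log_mul (by norm_num) (by positivity), Real.log_exp]
  have hlog9 : Real.log 9 ≤ 2.25 := by
    have h1 : Real.log 9 ≤ Real.log (2 ^ (3 : ℕ) * Real.exp (1/8)) := by
      refine Real.log_le_log (by norm_num) ?_
      have := Real.add_one_le_exp (1 / 8 : ℝ)
      norm_num
      linarith
    rw [Real.log_mul (by norm_num) (by positivity), Real.log_exp, Real.log_pow] at h1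
    push_cast at h1
    linarith
  have hwL : (w : ℝ) ≤ 73.6 * (Real.sqrt s * L) := by
    have h1 := clog_le (2 * R * Q + 2)
    rw [← hw] at h1
    have h2 : Real.logb 2 ((2 * R * Q + 2 : ℕ) : ℝ) * Real.log 2 ≤
        Real.log 2 + Real.log ((R : ℝ) + 1) + (Real.log 9 + 7 * τ) := by
      rw [hlogb]
      exact hlogQ
    have h3 : 1 ≤ Real.sqrt s * L := by nlinarith
    have h4 : L ≤ Real.sqrt s * L := by nlinarith
    have h5 : Real.logb 2 ((2 * R * Q + 2 : ℕ) : ℝ) * Real.log 2 ≤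
        (72.6 * (Real.sqrt s * L)) * Real.log 2 := by
      nlinarith
    have h6 : Real.logb 2 ((2 * R * Q + 2 : ℕ) : ℝ) ≤ 72.6 * (Real.sqrt s * L) :=
      le_of_mul_le_mul_right h5 (by linarith)
    linarith
  have hcl : (Nat.clog 2 R : ℝ) ≤ L := by
    have := clog_le R
    rw [hL]
    linarith
  have hsL : 1 ≤ Real.sqrt s * L := by nlinarith
  push_cast
  calc 2 * (w : ℝ) * (Nat.clog 2 R : ℝ) + 2 ≤ 2 * (73.6 * (Real.sqrt s * L)) * L + 2 := by
        have h1 : 2 * (w : ℝ) * (Nat.clog 2 R : ℝ) ≤ 2 * (73.6 * (Real.sqrt s * L)) * L :=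
          mul_le_mul (by linarith) hcl (Nat.cast_nonneg _) (by positivity)
        linarith
    _ ≤ 200 * Real.sqrt s * L ^ 2 := by nlinarith

end Run7.h284.SR
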