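import Mathlib

set_option autoImplicit false

/-!
Gaussian tilting: from a kernel with large exponential sum over the positive entries to a rectangle
in which nearly all entries are positive.
-/

namespace Run7.h284.SR

open Finset MeasureTheory ProbabilityTheory Matrix

/-- the standard Gaussian measure -/
noncomputable def gam (r : ℕ) : Measure (Fin r → ℝ) := Measure.pi (fun _ => gaussianReal 0 1)

instance (r : ℕ) : IsProbabilityMeasure (gam r) := by unfold gam; infer_instance

theorem gam_integrable {r : ℕ} (c : Fin r → ℝ) :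
    Integrable (fun v => Real.exp (c ⬝ᵥ v)) (gam r) := by
  have h := Integrable.fintype_prod (𝕜 := ℝ) (f := fun (i : Fin r) (x : ℝ) => Real.exp (c i * x))
    (μ := fun _ : Fin r => gaussianReal 0 1) (fun i => integrable_exp_mul_gaussianReal (c i))
  refine h.congr (Filter.Eventually.of_forall fun v => ?_)
  simp only [dotProduct, Real.exp_sum]

theorem gam_exp {r : ℕ} (c : Fin r → ℝ) :
    ∫ v, Real.exp (c ⬝ᵥ v) ∂(gam r) = Real.exp ((c ⬝ᵥ c) / 2) := by
  have h := integral_fintype_prod_eq_prod (𝕜 := ℝ)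
    (fun (i : Fin r) (x : ℝ) => Real.exp (c i * x)) (μ := fun _ : Fin r => gaussianReal 0 1)
  have e1 : ∀ v : Fin r → ℝ, Real.exp (c ⬝ᵥ v) = ∏ i, Real.exp (c i * v i) := by
    intro v
    simp only [dotProduct, Real.exp_sum]
  have e2 : ∀ i, ∫ x, Real.exp (c i * x) ∂(gaussianReal 0 1) = Real.exp (c i * c i / 2) := by
    intro i
    have h2 := congrFun (mgf_id_gaussianReal (μ := 0) (v := 1)) (c i)
    simp only [mgf, id] at h2
    rw [h2]
    congr 1
    simp
    ring
  simp only [e1, gam]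
  rw [h]
  simp only [e2]
  rw [← Real.exp_sum]
  congr 1
  simp only [dotProduct, Finset.sum_div]

theorem round_one {ι : Type*} [Fintype ι] (a : ι → ℝ) (t : ι → ℝ) (ht : ∀ i, 0 ≤ t i ∧ t i ≤ 1) :
    ∑ i, t i * a i ≤ ∑ i ∈ Finset.univ.filter (fun i => 0 < a i), a i := by
  rw [Finset.sum_filter]
  refine Finset.sum_le_sum fun i _ => ?_
  split_ifs with h
  · have := (ht i).2
    nlinarith
  · have := (ht i).1
    push Not at h
    nlinarith

theorem rounding {α κ : Type*} [Fintype α] [Fintype κ] (c : α → κ → ℝ) (p : α → ℝ) (q : κ → ℝ)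
    (hp : ∀ i, 0 ≤ p i ∧ p i ≤ 1) (hq : ∀ j, 0 ≤ q j ∧ q j ≤ 1) :
    ∃ (S : Finset α) (T : Finset κ), ∑ i, ∑ j, p i * q j * c i j ≤ ∑ i ∈ S, ∑ j ∈ T, c i j := by
  classical
  refine ⟨Finset.univ.filter (fun i => 0 < ∑ j, q j * c i j),
    Finset.univ.filter (fun j => 0 < ∑ i ∈ Finset.univ.filter (fun i => 0 < ∑ j, q j * c i j),
      c i j), ?_⟩
  calc ∑ i, ∑ j, p i * q j * c i j = ∑ i, p i * ∑ j, q j * c i j := by
        refine Finset.sum_congr rfl fun i _ => ?_
        rw [Finset.mul_sum]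
        exact Finset.sum_congr rfl fun j _ => by ring
    _ ≤ ∑ i ∈ Finset.univ.filter (fun i => 0 < ∑ j, q j * c i j), ∑ j, q j * c i j :=
        round_one _ p hp
    _ = ∑ j, q j * ∑ i ∈ Finset.univ.filter (fun i => 0 < ∑ j, q j * c i j), c i j := by
        rw [Finset.sum_comm]
        refine Finset.sum_congr rfl fun j _ => ?_
        rw [Finset.mul_sum]
    _ ≤ _ := (round_one _ q hq).trans (le_of_eq (Finset.sum_comm))

theorem min_mul (x y : ℝ) (hx : 0 < x) (hy : 0 < y) :
    x * y - x ^ 3 * y - x * y ^ 3 ≤ min 1 x * min 1 y := by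
  have hxy : 0 < x * y := mul_pos hx hy
  rcases le_total x 1 with h1 | h1 <;> rcases le_total y 1 with h2 | h2
  · rw [min_eq_right h1, min_eq_right h2]
    have : 0 ≤ x ^ 3 * y + x * y ^ 3 := by positivity
    linarith
  · rw [min_eq_right h1, min_eq_left h2]
    have : x * y ≤ x * y ^ 3 := by
      refine mul_le_mul_of_nonneg_left ?_ hx.le
      nlinarith [mul_self_nonneg (y - 1)]
    have : 0 ≤ x ^ 3 * y := by positivity
    linarith
  · rw [min_eq_left h1, min_eq_right h2]
    have : x * y ≤ x ^ 3 * y := by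
      refine mul_le_mul_of_nonneg_right ?_ hy.le
      nlinarith [mul_self_nonneg (x - 1)]
    have : 0 ≤ x * y ^ 3 := by positivity
    linarith
  · rw [min_eq_left h1, min_eq_left h2]
    have : x * y ≤ x ^ 3 * y := by
      refine mul_le_mul_of_nonneg_right ?_ hy.le
      nlinarith [mul_self_nonneg (x - 1)]
    have : 0 ≤ x * y ^ 3 := by positivity
    linarith

/-- **Tilting.** -/
theorem tilt {r : ℕ} {α κ : Type*} [Fintype α] [Fintype κ] (z : α → Fin r → ℝ)
    (w : κ → Fin r → ℝ) (hz : ∀ i, z i ⬝ᵥ z i = 1) (hw : ∀ j, w j ⬝ᵥ w j = 1) (τ u : ℝ)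
    (hτ : 1 ≤ τ) (hu : 4 ≤ u) (hρ : ∀ i j, z i ⬝ᵥ w j ≤ 1)
    (hN : 0 < (Fintype.card α : ℝ) * Fintype.card κ)
    (hP : (1 / 2) * ((Fintype.card α : ℝ) * Fintype.card κ) * Real.exp u ≤
      ∑ i, ∑ j, if 0 < z i ⬝ᵥ w j then Real.exp (τ * (z i ⬝ᵥ w j)) else 0) :
    ∃ (S : Finset α) (T : Finset κ),
      Real.exp (-(7 * τ)) * ((Fintype.card α : ℝ) * Fintype.card κ) <
        ∑ i ∈ S, ∑ j ∈ T, (if 0 < z i ⬝ᵥ w j then (1 : ℝ) else 1 - Real.exp u / 3) := by
  classical
  set N : ℝ := (Fintype.card α : ℝ) * Fintype.card κ with hNdef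
  set K : ℝ := Real.exp u / 3 with hK
  set s : ℝ := Real.sqrt τ with hs
  have hss : s * s = τ := Real.mul_self_sqrt (by linarith)
  have hK1 : 1 ≤ K := by
    have := Real.add_one_le_exp u
    rw [hK]
    linarith
  -- the basic exponentials
  let E : ℝ → ℝ → α → κ → (Fin r → ℝ) → ℝ := fun a b i j v =>
    Real.exp ((s • (a • z i + b • w j)) ⬝ᵥ v) * Real.exp (-(4 * τ * (a + b)))
  have hEint : ∀ a b i j, Integrable (E a b i j) (gam r) := fun a b i j =>
    (gam_integrable _).mul_const _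
  have hEval : ∀ a b i j, ∫ v, E a b i j v ∂(gam r) =
      Real.exp (τ * (a ^ 2 + b ^ 2 + 2 * a * b * (z i ⬝ᵥ w j)) / 2 - 4 * τ * (a + b)) := by
    intro a b i j
    simp only [E]
    rw [integral_mul_const, gam_exp, ← Real.exp_add]
    congr 1
    rw [smul_dotProduct, dotProduct_smul, add_dotProduct, dotProduct_add, dotProduct_add,
      smul_dotProduct, dotProduct_smul, smul_dotProduct, dotProduct_smul, smul_dotProduct,
      dotProduct_smul, smul_dotProduct, dotProduct_smul, hz, hw, dotProduct_comm (w j) (z i)]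
    simp only [smul_eq_mul]
    linear_combination ((a * a + b * b + 2 * a * b * (z i ⬝ᵥ w j)) / 2) * hss
  let x : α → (Fin r → ℝ) → ℝ := fun i v => Real.exp (s * (z i ⬝ᵥ v) - 4 * τ)
  let y : κ → (Fin r → ℝ) → ℝ := fun j v => Real.exp (s * (w j ⬝ᵥ v) - 4 * τ)
  have hE11 : ∀ i j v, E 1 1 i j v = x i v * y j v := by
    intro i j v
    simp only [E, x, y]
    rw [← Real.exp_add, ← Real.exp_add]
    congr 1
    rw [smul_dotProduct, add_dotProduct, smul_dotProduct, smul_dotProduct]
    simp only [smul_eq_mul]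
    ring
  have hE31 : ∀ i j v, E 3 1 i j v = x i v ^ 3 * y j v := by
    intro i j v
    simp only [E, x, y]
    rw [← Real.exp_nat_mul, ← Real.exp_add, ← Real.exp_add]
    congr 1
    rw [smul_dotProduct, add_dotProduct, smul_dotProduct, smul_dotProduct]
    simp only [smul_eq_mul]
    push_cast
    ring
  have hE13 : ∀ i j v, E 1 3 i j v = x i v * y j v ^ 3 := by
    intro i j v
    simp only [E, x, y]
    rw [← Real.exp_nat_mul, ← Real.exp_add, ← Real.exp_add]
    congr 1
    rw [smul_dotProduct, add_dotProduct, smul_dotProduct, smul_dotProduct]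
    simp only [smul_eq_mul]
    push_cast
    ring
  let H : α → κ → (Fin r → ℝ) → ℝ := fun i j v =>
    if 0 < z i ⬝ᵥ w j then E 1 1 i j v - E 3 1 i j v - E 1 3 i j v else (1 - K) * E 1 1 i j v
  have hHint : ∀ i j, Integrable (H i j) (gam r) := by
    intro i j
    simp only [H]
    split_ifs
    · exact ((hEint _ _ _ _).sub (hEint _ _ _ _)).sub (hEint _ _ _ _)
    · exact (hEint _ _ _ _).const_mul _
  have hHval : ∀ i j, Real.exp (-(7 * τ)) * ((72 / 100) *
      (if 0 < z i ⬝ᵥ w j then Real.exp (τ * (z i ⬝ᵥ w j)) else 0) - (K - 1)) ≤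
      ∫ v, H i j v ∂(gam r) := by
    intro i j
    have e0 : 0 < Real.exp (-(7 * τ)) := Real.exp_pos _
    simp only [H]
    split_ifs with h
    · have i1 : ∫ v, E 1 1 i j v - E 3 1 i j v - E 1 3 i j v ∂(gam r) =
          ∫ v, E 1 1 i j v ∂(gam r) - ∫ v, E 3 1 i j v ∂(gam r) - ∫ v, E 1 3 i j v ∂(gam r) := by
        have i2 : Integrable (fun v => E 1 1 i j v - E 3 1 i j v) (gam r) :=
          (hEint 1 1 i j).sub (hEint 3 1 i j)
        rw [integral_sub i2 (hEint 1 3 i j), integral_sub (hEint 1 1 i j) (hEint 3 1 i j)]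
      rw [i1, hEval, hEval, hEval]
      set ρ := z i ⬝ᵥ w j with hρd
      have h1 : Real.exp (τ * (1 ^ 2 + 1 ^ 2 + 2 * 1 * 1 * ρ) / 2 - 4 * τ * (1 + 1)) =
          Real.exp (-(7 * τ)) * Real.exp (τ * ρ) := by
        rw [← Real.exp_add]
        congr 1
        ring
      have h2 : Real.exp (τ * (3 ^ 2 + 1 ^ 2 + 2 * 3 * 1 * ρ) / 2 - 4 * τ * (3 + 1)) ≤
          Real.exp (-(7 * τ)) * Real.exp (τ * ρ) * Real.exp (-2) := by
        rw [← Real.exp_add, ← Real.exp_add]
        refine Real.exp_le_exp.2 ?_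
        have := hρ i j
        nlinarith
      have h3 : Real.exp (τ * (1 ^ 2 + 3 ^ 2 + 2 * 1 * 3 * ρ) / 2 - 4 * τ * (1 + 3)) ≤
          Real.exp (-(7 * τ)) * Real.exp (τ * ρ) * Real.exp (-2) := by
        rw [← Real.exp_add, ← Real.exp_add]
        refine Real.exp_le_exp.2 ?_
        have := hρ i j
        nlinarith
      have h4 : Real.exp (-2) ≤ 14 / 100 := by
        have h5 : (2.7182818283 : ℝ) < Real.exp 1 := Real.exp_one_gt_d9
        have h6 : Real.exp (-2) * (Real.exp 1 * Real.exp 1) = 1 := by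
          rw [← Real.exp_add, ← Real.exp_add]
          norm_num
        have h7 : 0 < Real.exp (-2) := Real.exp_pos _
        nlinarith
      rw [h1]
      have h8 : 0 < Real.exp (-(7 * τ)) * Real.exp (τ * ρ) := by positivity
      have h9 : Real.exp (-(7 * τ)) * Real.exp (τ * ρ) * Real.exp (-2) ≤
          Real.exp (-(7 * τ)) * Real.exp (τ * ρ) * (14 / 100) :=
        mul_le_mul_of_nonneg_left h4 h8.le
      nlinarith
    · rw [integral_const_mul, hEval]
      set ρ := z i ⬝ᵥ w j with hρd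
      have h1 : Real.exp (τ * (1 ^ 2 + 1 ^ 2 + 2 * 1 * 1 * ρ) / 2 - 4 * τ * (1 + 1)) ≤
          Real.exp (-(7 * τ)) := by
        refine Real.exp_le_exp.2 ?_
        push Not at h
        nlinarith
      nlinarith
  let G : (Fin r → ℝ) → ℝ := fun v => (∑ i, ∑ j, H i j v) - Real.exp (-(7 * τ)) * N
  have hsumint : Integrable (fun v => ∑ i, ∑ j, H i j v) (gam r) :=
    integrable_finsetSum _ fun i _ => integrable_finsetSum _ fun j _ => hHint i j
  have hGint : Integrable G (gam r) := hsumint.sub (integrable_const _)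
  have hG : 0 < ∫ v, G v ∂(gam r) := by
    simp only [G]
    rw [integral_sub hsumint (integrable_const _), integral_const]
    rw [integral_finsetSum _ fun i _ => integrable_finsetSum _ fun j _ => hHint i j]
    have h1 : ∀ i, ∫ v, ∑ j, H i j v ∂(gam r) = ∑ j, ∫ v, H i j v ∂(gam r) := fun i =>
      integral_finsetSum _ fun j _ => hHint i j
    simp only [h1]
    have h2 := Finset.sum_le_sum fun i (_ : i ∈ (Finset.univ : Finset α)) =>
      Finset.sum_le_sum fun j (_ : j ∈ (Finset.univ : Finset κ)) => hHval i j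
    have h3 : ∑ i : α, ∑ j : κ, Real.exp (-(7 * τ)) * ((72 / 100) *
        (if 0 < z i ⬝ᵥ w j then Real.exp (τ * (z i ⬝ᵥ w j)) else 0) - (K - 1)) =
        Real.exp (-(7 * τ)) * ((72 / 100) * (∑ i, ∑ j, if 0 < z i ⬝ᵥ w j then
          Real.exp (τ * (z i ⬝ᵥ w j)) else 0) - (K - 1) * N) := by
      simp only [← Finset.mul_sum, Finset.sum_sub_distrib, Finset.sum_const, Finset.card_univ,
        nsmul_eq_mul]
      rw [hNdef]
      ring
    rw [h3] at h2
    simp only [probReal_univ, one_smul]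
    have e0 : 0 < Real.exp (-(7 * τ)) := Real.exp_pos _
    have h4 : 0 < (72 / 100) * (∑ i, ∑ j, if 0 < z i ⬝ᵥ w j then
          Real.exp (τ * (z i ⬝ᵥ w j)) else 0) - (K - 1) * N - N := by
      have h5 : (K : ℝ) * N = N * Real.exp u / 3 := by rw [hK]; ring
      have h6 : 0 < N * Real.exp u := mul_pos hN (Real.exp_pos _)
      nlinarith
    nlinarith
  have hex : ∃ v, 0 < G v := by
    by_contra hcon
    push Not at hcon
    exact absurd hG (not_lt.2 (integral_nonpos hcon))
  obtain ⟨v, hv⟩ := hex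
  obtain ⟨S, T, hST⟩ := rounding (fun i j => if 0 < z i ⬝ᵥ w j then (1 : ℝ) else 1 - K)
    (fun i => min 1 (x i v)) (fun j => min 1 (y j v))
    (fun i => ⟨le_min zero_le_one (Real.exp_pos _).le, min_le_left _ _⟩)
    (fun j => ⟨le_min zero_le_one (Real.exp_pos _).le, min_le_left _ _⟩)
  refine ⟨S, T, lt_of_lt_of_le ?_ hST⟩
  have h1 : ∑ i, ∑ j, H i j v ≤ ∑ i, ∑ j, min 1 (x i v) * min 1 (y j v) *
      (if 0 < z i ⬝ᵥ w j then (1 : ℝ) else 1 - K) := by
    refine Finset.sum_le_sum fun i _ => Finset.sum_le_sum fun j _ => ?_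
    have hx : 0 < x i v := Real.exp_pos _
    have hy : 0 < y j v := Real.exp_pos _
    simp only [H]
    split_ifs with h
    · rw [hE11, hE31, hE13, mul_one]
      exact min_mul _ _ hx hy
    · rw [hE11]
      have h2 : min 1 (x i v) * min 1 (y j v) ≤ x i v * y j v :=
        mul_le_mul (min_le_right _ _) (min_le_right _ _) (le_min zero_le_one hy.le) hx.le
      nlinarith
  have h2 : 0 < (∑ i, ∑ j, H i j v) - Real.exp (-(7 * τ)) * N := hv
  linarith

end Run7.h284.SR
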