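import Pool.Agent.Run7.h284.SR.Forster
import Pool.Agent.Run7.h284.SR.Tilt

set_option autoImplicit false

/-!
Sign matrices of rank `r` contain nearly constant rectangles of relative size `exp (- C √r)`.
-/

namespace Run7.h284.SR

open Finset Matrix

theorem tangent (t u : ℝ) (ht : 0 ≤ t) (hu : 4 ≤ u) :
    Real.exp u * (1 + (t ^ 2 - u ^ 2) / (2 * u)) ≤ Real.exp t := by
  have hu0 : 0 < u := by linarith
  set d := t - u with hd
  have e1 : 1 + (t ^ 2 - u ^ 2) / (2 * u) = 1 + d + d ^ 2 / (2 * u) := by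
    rw [hd]
    field_simp
    ring
  have e2 : Real.exp t = Real.exp u * Real.exp d := by
    rw [← Real.exp_add, hd]
    congr 1
    ring
  rw [e1, e2]
  refine mul_le_mul_of_nonneg_left ?_ (Real.exp_pos _).le
  have h8 : d ^ 2 / (2 * u) ≤ d ^ 2 / 8 :=
    div_le_div_of_nonneg_left (sq_nonneg _) (by norm_num) (by linarith)
  rcases le_total 0 d with h | h
  · have := Real.quadratic_le_exp_of_nonneg h
    nlinarith [sq_nonneg d]
  · rcases le_total (-d) 2 with h2 | h2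
    · have h3 := Real.add_one_le_exp (d / 2)
      have h4 : Real.exp d = Real.exp (d / 2) * Real.exp (d / 2) := by
        rw [← Real.exp_add]
        congr 1
        ring
      have h5 : 0 ≤ d / 2 + 1 := by linarith
      rw [h4]
      nlinarith [sq_nonneg d, mul_le_mul h3 h3 h5 (Real.exp_pos _).le]
    · have h3 : d ^ 2 / (2 * u) ≤ -d / 2 := by
        rw [div_le_iff₀ (by linarith)]
        have : -d ≤ u := by rw [hd]; linarith
        nlinarith
      have := Real.exp_pos d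
      linarith

theorem pair_core {r : ℕ} {β κ : Type*} [Fintype β] [Fintype κ]
    (X : β → Matrix (Fin r) (Fin r) ℝ) (hX : ∀ b, (X b).det ≠ 0) (y : κ → Fin r → ℝ)
    (hy : ∀ b a j, X b a ⬝ᵥ y j ≠ 0) (hr : 0 < r) (u : ℝ) (hu : 4 ≤ u) (hβ : 0 < Fintype.card β)
    (hκ : 0 < Fintype.card κ) :
    ∃ (c : Bool) (S : Finset (β × Fin r)) (T : Finset κ),
      Real.exp (-(7 * (u * Real.sqrt (2 * r)))) *
        ((Fintype.card (β × Fin r) : ℝ) * Fintype.card κ) <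
        ∑ i ∈ S, ∑ j ∈ T, (if decide (0 < X i.1 i.2 ⬝ᵥ y j) = c then (1 : ℝ)
          else 1 - Real.exp u / 3) := by
  classical
  obtain ⟨B, hB, hF⟩ := forster X hX
  have hr0 : (0 : ℝ) < r := by exact_mod_cast hr
  have hr1 : (1 : ℝ) ≤ r := by exact_mod_cast hr
  set τ : ℝ := u * Real.sqrt (2 * r) with hτ
  have hsq : Real.sqrt (2 * r) * Real.sqrt (2 * r) = 2 * r := Real.mul_self_sqrt (by positivity)
  have hsq1 : 1 ≤ Real.sqrt (2 * r) := by
    rw [Real.one_le_sqrt]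
    linarith
  have hτ1 : 1 ≤ τ := by nlinarith
  have hτ2 : τ ^ 2 = u ^ 2 * (2 * r) := by
    rw [hτ, mul_pow, sq (Real.sqrt (2 * r)), hsq]
  have hx0 : ∀ b a, X b a ≠ 0 := fun b a => row_ne (hX b) a
  have hy0 : ∀ j, y j ≠ 0 := by
    intro j h
    obtain ⟨b⟩ := Fintype.card_pos_iff.1 hβ
    exact hy b ⟨0, hr⟩ j (by rw [h, dotProduct_zero])
  have hBt : (B⁻¹)ᵀ.det ≠ 0 := by
    rw [Matrix.det_transpose, Matrix.det_nonsing_inv, Ring.inverse_eq_inv']
    exact inv_ne_zero hB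
  let q : β × Fin r → ℝ := fun i => (B *ᵥ (X i.1 i.2)) ⬝ᵥ (B *ᵥ (X i.1 i.2))
  let p : κ → ℝ := fun j => ((B⁻¹)ᵀ *ᵥ (y j)) ⬝ᵥ ((B⁻¹)ᵀ *ᵥ (y j))
  have hq : ∀ i, 0 < q i := fun i => self_pos (mulVec_ne hB (hx0 i.1 i.2))
  have hp : ∀ j, 0 < p j := fun j => self_pos (mulVec_ne hBt (hy0 j))
  let z : β × Fin r → Fin r → ℝ := fun i => (Real.sqrt (q i))⁻¹ • (B *ᵥ (X i.1 i.2))
  let w : κ → Fin r → ℝ := fun j => (Real.sqrt (p j))⁻¹ • ((B⁻¹)ᵀ *ᵥ (y j))
  have hz : ∀ i, z i ⬝ᵥ z i = 1 := by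
    intro i
    simp only [z]
    rw [smul_dotProduct, dotProduct_smul, smul_eq_mul, smul_eq_mul]
    have h1 : Real.sqrt (q i) ≠ 0 := (Real.sqrt_pos.2 (hq i)).ne'
    have h2 : Real.sqrt (q i) * Real.sqrt (q i) = q i := Real.mul_self_sqrt (hq i).le
    show (Real.sqrt (q i))⁻¹ * ((Real.sqrt (q i))⁻¹ * q i) = 1
    field_simp
    rw [sq, h2]
  have hw : ∀ j, w j ⬝ᵥ w j = 1 := by
    intro j
    simp only [w]
    rw [smul_dotProduct, dotProduct_smul, smul_eq_mul, smul_eq_mul]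
    have h1 : Real.sqrt (p j) ≠ 0 := (Real.sqrt_pos.2 (hp j)).ne'
    have h2 : Real.sqrt (p j) * Real.sqrt (p j) = p j := Real.mul_self_sqrt (hp j).le
    show (Real.sqrt (p j))⁻¹ * ((Real.sqrt (p j))⁻¹ * p j) = 1
    field_simp
    rw [sq, h2]
  have hinner : ∀ (i : β × Fin r) (j : κ), (B *ᵥ (X i.1 i.2)) ⬝ᵥ ((B⁻¹)ᵀ *ᵥ (y j)) = X i.1 i.2 ⬝ᵥ y j := by
    intro i j
    rw [Matrix.dotProduct_mulVec, Matrix.vecMul_transpose, Matrix.mulVec_mulVec,
      Matrix.nonsing_inv_mul _ (isUnit_iff_ne_zero.2 hB), Matrix.one_mulVec]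
  have hρ : ∀ i j, z i ⬝ᵥ w j = (Real.sqrt (q i))⁻¹ * ((Real.sqrt (p j))⁻¹ *
      (X i.1 i.2 ⬝ᵥ y j)) := by
    intro i j
    simp only [z, w]
    rw [smul_dotProduct, dotProduct_smul, smul_eq_mul, smul_eq_mul, hinner]
  have hs1 : ∀ i, 0 < (Real.sqrt (q i))⁻¹ := fun i => inv_pos.2 (Real.sqrt_pos.2 (hq i))
  have hs2 : ∀ j, 0 < (Real.sqrt (p j))⁻¹ := fun j => inv_pos.2 (Real.sqrt_pos.2 (hp j))
  have hρpos : ∀ i j, 0 < z i ⬝ᵥ w j ↔ 0 < X i.1 i.2 ⬝ᵥ y j := by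
    intro i j
    rw [hρ, mul_pos_iff_of_pos_left (hs1 i), mul_pos_iff_of_pos_left (hs2 j)]
  have hρne : ∀ i j, z i ⬝ᵥ w j ≠ 0 := by
    intro i j
    rw [hρ]
    exact mul_ne_zero (hs1 i).ne' (mul_ne_zero (hs2 j).ne' (hy _ _ _))
  have hcs : ∀ i j, (z i ⬝ᵥ w j) ^ 2 ≤ 1 := by
    intro i j
    have := cs (z i) (w j)
    rwa [hz, hw, one_mul] at this
  -- the sum of the squares
  have hsum : ∀ j, (Fintype.card β : ℝ) / 2 ≤ ∑ i, (z i ⬝ᵥ w j) ^ 2 := by
    intro j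
    refine (hF (w j) (hw j)).trans (le_of_eq ?_)
    rw [Fintype.sum_prod_type]
    refine Finset.sum_congr rfl fun b _ => Finset.sum_congr rfl fun a _ => ?_
    have hzw : z (b, a) ⬝ᵥ w j = (Real.sqrt (q (b, a)))⁻¹ * (w j ⬝ᵥ (B *ᵥ (X b a))) := by
      show ((Real.sqrt (q (b, a)))⁻¹ • (B *ᵥ (X b a))) ⬝ᵥ w j = _
      rw [smul_dotProduct, smul_eq_mul, dotProduct_comm]
    rw [hzw, mul_pow, inv_pow, Real.sq_sqrt (hq (b, a)).le, div_eq_mul_inv, mul_comm]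
  set N : ℝ := (Fintype.card (β × Fin r) : ℝ) * Fintype.card κ with hN
  have hNeq : N = (Fintype.card β : ℝ) * r * Fintype.card κ := by
    rw [hN, Fintype.card_prod, Fintype.card_fin]
    push_cast
    ring
  have hβ0 : (0 : ℝ) < Fintype.card β := by exact_mod_cast hβ
  have hκ0 : (0 : ℝ) < Fintype.card κ := by exact_mod_cast hκ
  have hNpos : 0 < N := by rw [hNeq]; positivity
  have htot : N * Real.exp u ≤ ∑ i, ∑ j, Real.exp (τ * |z i ⬝ᵥ w j|) := by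
    have h1 : ∀ i j, Real.exp u * (1 + (τ ^ 2 * (z i ⬝ᵥ w j) ^ 2 - u ^ 2) / (2 * u)) ≤
        Real.exp (τ * |z i ⬝ᵥ w j|) := by
      intro i j
      have := tangent (τ * |z i ⬝ᵥ w j|) u (by positivity) hu
      rwa [mul_pow, sq_abs] at this
    have h2 : ∑ j : κ, ∑ i : β × Fin r,
        Real.exp u * (1 + (τ ^ 2 * (z i ⬝ᵥ w j) ^ 2 - u ^ 2) / (2 * u)) ≤
        ∑ j, ∑ i, Real.exp (τ * |z i ⬝ᵥ w j|) :=
      Finset.sum_le_sum fun j _ => Finset.sum_le_sum fun i _ => h1 i j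
    rw [Finset.sum_comm (s := (Finset.univ : Finset (β × Fin r)))]
    refine le_trans ?_ h2
    have h3 : ∀ j : κ, (Fintype.card β : ℝ) * r * Real.exp u ≤ ∑ i : β × Fin r,
        Real.exp u * (1 + (τ ^ 2 * (z i ⬝ᵥ w j) ^ 2 - u ^ 2) / (2 * u)) := by
      intro j
      rw [← Finset.mul_sum, Finset.sum_add_distrib, ← Finset.sum_div, Finset.sum_sub_distrib,
        ← Finset.mul_sum, Finset.sum_const, Finset.sum_const, Finset.card_univ,
        Fintype.card_prod, Fintype.card_fin, nsmul_eq_mul, nsmul_eq_mul]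
      have h4 : 0 ≤ (τ ^ 2 * ∑ i, (z i ⬝ᵥ w j) ^ 2 - ((Fintype.card β * r : ℕ) : ℝ) * u ^ 2) /
          (2 * u) := by
        apply div_nonneg _ (by linarith)
        rw [hτ2]
        push_cast
        have := hsum j
        have h5 : (u ^ 2 * (2 * r)) * ((Fintype.card β : ℝ) / 2) ≤
            (u ^ 2 * (2 * r)) * ∑ i, (z i ⬝ᵥ w j) ^ 2 :=
          mul_le_mul_of_nonneg_left this (by positivity)
        nlinarith
      have h6 : 0 < Real.exp u := Real.exp_pos _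
      push_cast
      push_cast at h4
      nlinarith
    calc N * Real.exp u = ∑ j : κ, (Fintype.card β : ℝ) * r * Real.exp u := by
          rw [Finset.sum_const, Finset.card_univ, nsmul_eq_mul, hNeq]
          ring
      _ ≤ _ := Finset.sum_le_sum fun j _ => h3 j
  have hsplit : ∑ i, ∑ j, Real.exp (τ * |z i ⬝ᵥ w j|) =
      (∑ i, ∑ j, if 0 < z i ⬝ᵥ w j then Real.exp (τ * (z i ⬝ᵥ w j)) else 0) +
      ∑ i, ∑ j, if 0 < z i ⬝ᵥ (-w j) then Real.exp (τ * (z i ⬝ᵥ (-w j))) else 0 := by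
    rw [← Finset.sum_add_distrib]
    refine Finset.sum_congr rfl fun i _ => ?_
    rw [← Finset.sum_add_distrib]
    refine Finset.sum_congr rfl fun j _ => ?_
    rw [dotProduct_neg]
    rcases lt_or_gt_of_ne (hρne i j) with h | h
    · rw [if_neg (not_lt.2 h.le), if_pos (by linarith), abs_of_neg h, zero_add]
    · rw [if_pos h, if_neg (by linarith), abs_of_pos h, add_zero]
  rw [hsplit] at htot
  rcases le_total ((1 / 2) * N * Real.exp u) (∑ i, ∑ j, if 0 < z i ⬝ᵥ w j then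
      Real.exp (τ * (z i ⬝ᵥ w j)) else 0) with hcase | hcase
  · obtain ⟨S, T, hST⟩ := tilt z w hz hw τ u hτ1 hu
      (fun i j => by nlinarith [hcs i j, sq_nonneg (z i ⬝ᵥ w j - 1)]) hNpos hcase
    refine ⟨true, S, T, lt_of_lt_of_le hST (le_of_eq ?_)⟩
    refine Finset.sum_congr rfl fun i _ => Finset.sum_congr rfl fun j _ => ?_
    by_cases h : 0 < X i.1 i.2 ⬝ᵥ y j
    · rw [if_pos ((hρpos i j).2 h), if_pos (by simpa using h)]
    · rw [if_neg (fun h' => h ((hρpos i j).1 h')), if_neg (by simpa using h)]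
  · have hcase' : (1 / 2) * N * Real.exp u ≤ ∑ i, ∑ j, if 0 < z i ⬝ᵥ (-w j) then
        Real.exp (τ * (z i ⬝ᵥ (-w j))) else 0 := by linarith
    obtain ⟨S, T, hST⟩ := tilt z (fun j => -w j) hz
      (fun j => by rw [neg_dotProduct, dotProduct_neg, neg_neg]; exact hw j) τ u hτ1 hu
      (fun i j => by
        rw [dotProduct_neg]
        nlinarith [hcs i j, sq_nonneg (z i ⬝ᵥ w j + 1)]) hNpos hcase'
    refine ⟨false, S, T, lt_of_lt_of_le hST (le_of_eq ?_)⟩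
    refine Finset.sum_congr rfl fun i _ => Finset.sum_congr rfl fun j _ => ?_
    have h1 : 0 < z i ⬝ᵥ (-w j) ↔ ¬ 0 < X i.1 i.2 ⬝ᵥ y j := by
      rw [← hρpos i j, dotProduct_neg]
      rcases lt_or_gt_of_ne (hρne i j) with h | h
      · exact ⟨fun _ => not_lt.2 h.le, fun _ => by linarith⟩
      · exact ⟨fun h' => by linarith, fun h' => absurd h h'⟩
    by_cases h : 0 < X i.1 i.2 ⬝ᵥ y j
    · rw [if_neg (fun h' => (h1.1 h') h), if_neg (by simpa using h)]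
    · rw [if_pos (h1.2 h), if_pos (by simpa using h)]

end Run7.h284.SR
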