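import Pool.Agent.Run7.h284.SR.Recur
import Pool.Agent.Run7.h571.RD.Growth

set_option autoImplicit false

/-!
# Diagonal Ramsey numbers of colourings of small sign rank

Helper file for `MP_28724c_co.SignRankColourings`.
-/

open Filter Topology

namespace Run7.h284.SR

open Run7.h571.RD

/-- The colouring of the pairs of different vertices (red: edges of `G`, blue: non-edges) has sign
rank at most `r`: there are vectors `p x`, `q y` in `ℝ ^ r` whose inner product is positive if
`x y` is red and negative if `x y` is blue (`x ≠ y`; nothing is asked for `x = y`). -/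
def SignRankLE {V : Type} (G : SimpleGraph V) (r : ℕ) : Prop :=
  ∃ p q : V → Fin r → ℝ, ∀ x y, x ≠ y →
    (G.Adj x y → 0 < ∑ i, p x i * q y i) ∧ (¬ G.Adj x y → ∑ i, p x i * q y i < 0)

/-- There is no monochromatic set of `k` vertices. -/
def NoMono {V : Type} (G : SimpleGraph V) (k : ℕ) : Prop :=
  ∀ S : Finset V, ¬ G.IsNClique k S ∧ ¬ Gᶜ.IsNClique k S

/-- Every colouring of `n` points of sign rank at most `r` has a monochromatic set of `k` points. -/
def SGood (r k n : ℕ) : Prop :=
  ∀ G : SimpleGraph (Fin n), SignRankLE G r → ¬ NoMono G k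

/-- The diagonal Ramsey number of the colourings of sign rank at most `r`. -/
noncomputable def signRamsey (r k : ℕ) : ℕ := sInf {n : ℕ | SGood r k n}

theorem signRank_mono {V : Type} {G : SimpleGraph V} {r r' : ℕ} (h : SignRankLE G r)
    (hr : r ≤ r') : SignRankLE G r' := by
  obtain ⟨p, q, hpq⟩ := h
  let pad : (Fin r → ℝ) → Fin r' → ℝ := fun v i => if h : (i : ℕ) < r then v ⟨i, h⟩ else 0
  have key : ∀ v w : Fin r → ℝ, ∑ i, pad v i * pad w i = ∑ i, v i * w i := by
    intro v w
    symm
    have h1 : ∑ i : Fin r, v i * w i = ∑ i ∈ Finset.univ.map (Fin.castLEEmb hr), pad v i * pad w i := by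
      rw [Finset.sum_map]
      refine Finset.sum_congr rfl fun i _ => ?_
      simp [pad]
    rw [h1]
    apply Finset.sum_subset (Finset.subset_univ _)
    intro i _ hi
    have h2 : ¬ (i : ℕ) < r := by
      intro h3
      apply hi
      rw [Finset.mem_map]
      exact ⟨⟨i, h3⟩, Finset.mem_univ _, rfl⟩
    simp [pad, h2]
  refine ⟨fun x => pad (p x), fun y => pad (q y), fun x y hxy => ?_⟩
  rw [key]
  exact hpq x y hxy

theorem signRank_card {n : ℕ} (G : SimpleGraph (Fin n)) : SignRankLE G n := by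
  classical
  refine ⟨fun x i => if x = i then 1 else 0, fun y i => if G.Adj i y then 1 else -1,
    fun x y _ => ?_⟩
  have : ∑ i, (if x = i then (1 : ℝ) else 0) * (if G.Adj i y then 1 else -1) =
      if G.Adj x y then 1 else -1 := by
    rw [Finset.sum_eq_single x]
    · simp
    · intro b _ hb
      rw [if_neg (Ne.symm hb), zero_mul]
    · intro h
      exact absurd (Finset.mem_univ x) h
  rw [this]
  constructor
  · intro h
    simp [h]
  · intro h
    simp [h]

theorem noMono_iff {V : Type} (G : SimpleGraph V) (k : ℕ) :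
    ¬ NoMono G k ↔ ∃ S : Finset V, G.IsNClique k S ∨ Gᶜ.IsNClique k S := by
  unfold NoMono
  push Not
  refine exists_congr fun S => ?_
  tauto

theorem noMono_comap {V W : Type} {G : SimpleGraph V} {k : ℕ} (h : NoMono G k) (e : W ↪ V) :
    NoMono (G.comap e) k := by
  intro S
  constructor
  · intro hS
    refine (h (S.map e)).1 ⟨?_, by rw [Finset.card_map]; exact hS.card_eq⟩
    intro x hx y hy hxy
    rw [Finset.coe_map] at hx hy
    obtain ⟨a, ha, rfl⟩ := hx
    obtain ⟨b, hb, rfl⟩ := hy
    exact hS.isClique ha hb (fun h => hxy (by rw [h]))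
  · intro hS
    refine (h (S.map e)).2 ⟨?_, by rw [Finset.card_map]; exact hS.card_eq⟩
    intro x hx y hy hxy
    rw [Finset.coe_map] at hx hy
    obtain ⟨a, ha, rfl⟩ := hx
    obtain ⟨b, hb, rfl⟩ := hy
    have h1 := hS.isClique ha hb (fun h => hxy (by rw [h]))
    rw [SimpleGraph.compl_adj] at h1 ⊢
    exact ⟨hxy, h1.2⟩

theorem signRank_comap {V W : Type} {G : SimpleGraph V} {r : ℕ} (h : SignRankLE G r) (e : W ↪ V) :
    SignRankLE (G.comap e) r := by
  obtain ⟨p, q, hpq⟩ := h
  exact ⟨fun x => p (e x), fun y => q (e y), fun x y hxy =>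
    hpq (e x) (e y) (fun h => hxy (e.injective h))⟩

theorem sgood_mono_n {r k n n' : ℕ} (h : SGood r k n) (hn : n ≤ n') : SGood r k n' := by
  intro G hG hno
  exact h (G.comap (Fin.castLEEmb hn)) (signRank_comap hG _) (noMono_comap hno _)

theorem sgood_ramsey (r k : ℕ) : SGood r k (ramsey k) := by
  intro G _ hno
  obtain ⟨S, hS⟩ := Nat.sInf_mem (ramsey_exists k) G
  rcases hS with hS | hS
  · exact (hno S).1 hS
  · exact (hno S).2 hS

theorem sgood_iff (r k n : ℕ) : SGood r k n ↔ signRamsey r k ≤ n := by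
  constructor
  · intro h
    exact Nat.sInf_le h
  · intro h
    exact sgood_mono_n (Nat.sInf_mem (s := {n : ℕ | SGood r k n}) ⟨_, sgood_ramsey r k⟩) h

theorem signRamsey_le_ramsey (r k : ℕ) : signRamsey r k ≤ ramsey k :=
  (sgood_iff r k _).1 (sgood_ramsey r k)

theorem signRamsey_mono {r r' : ℕ} (k : ℕ) (h : r ≤ r') : signRamsey r k ≤ signRamsey r' k := by
  rw [← sgood_iff]
  intro G hG
  exact (sgood_iff r' k _).2 le_rfl G (signRank_mono hG h)

theorem signRamsey_eq (r k : ℕ) (h : ramsey k ≤ r + 1) : signRamsey r k = ramsey k := by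
  refine le_antisymm (signRamsey_le_ramsey r k) ?_
  refine Nat.sInf_le ?_
  intro G
  rw [← noMono_iff]
  by_cases hc : signRamsey r k ≤ r
  · exact (sgood_iff r k _).2 le_rfl G (signRank_mono (signRank_card G) hc)
  · push Not at hc
    have h1 : signRamsey r k = ramsey k := le_antisymm (signRamsey_le_ramsey r k) (by omega)
    intro hno
    have h2 := Nat.sInf_mem (ramsey_exists k)
    have h3 : ∀ G : SimpleGraph (Fin (ramsey k)), ∃ S : Finset (Fin (ramsey k)),
        G.IsNClique k S ∨ Gᶜ.IsNClique k S := h2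
    rw [← h1] at h3
    exact (noMono_iff G k).2 (h3 G) hno

/-- Distance colourings of points of `ℝ ^ r` have sign rank at most `r + 2`. -/
theorem signRank_dgraph {n r : ℕ} (x : Fin n → EuclideanSpace ℝ (Fin r)) :
    SignRankLE (dgraph x) (r + 2) := by
  classical
  -- a slightly larger radius
  obtain ⟨ε, hε, hfar⟩ : ∃ ε : ℝ, 0 < ε ∧ ∀ i j, 1 < dist (x i) (x j) →
      1 + ε < dist (x i) (x j) ^ 2 := by
    have h1 : ∀ i j, ∀ᶠ ε : ℝ in 𝓝[>] 0, 1 < dist (x i) (x j) → 1 + ε < dist (x i) (x j) ^ 2 := by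
      intro i j
      by_cases h : 1 < dist (x i) (x j)
      · have h2 : (0 : ℝ) < dist (x i) (x j) ^ 2 - 1 := by nlinarith
        filter_upwards [Ioo_mem_nhdsGT h2] with ε hε _
        linarith [hε.2]
      · exact Eventually.of_forall fun ε h' => absurd h' h
    have h3 : ∀ᶠ ε : ℝ in 𝓝[>] 0, ∀ i j, 1 < dist (x i) (x j) → 1 + ε < dist (x i) (x j) ^ 2 := by
      rw [Filter.eventually_all]
      intro i
      rw [Filter.eventually_all]
      exact h1 i
    obtain ⟨ε, h4, h5⟩ := (h3.and self_mem_nhdsWithin).exists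
    exact ⟨ε, h5, h4⟩
  refine ⟨fun i => Fin.cons 1 (Fin.cons (1 + ε - ∑ l, (x i).ofLp l ^ 2) (x i).ofLp),
    fun j => Fin.cons (- ∑ l, (x j).ofLp l ^ 2) (Fin.cons 1 (fun l => 2 * (x j).ofLp l)), ?_⟩
  intro i j hij
  have hsum : ∑ l : Fin (r + 2), (Fin.cons 1 (Fin.cons (1 + ε - ∑ l, (x i).ofLp l ^ 2) (x i).ofLp) :
      Fin (r + 2) → ℝ) l * (Fin.cons (- ∑ l, (x j).ofLp l ^ 2) (Fin.cons 1 (fun l => 2 * (x j).ofLp l)) :
      Fin (r + 2) → ℝ) l = 1 + ε - dist (x i) (x j) ^ 2 := by
    rw [Fin.sum_univ_succ, Fin.sum_univ_succ]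
    simp only [Fin.cons_zero, Fin.cons_succ]
    rw [EuclideanSpace.dist_eq, Real.sq_sqrt (Finset.sum_nonneg fun _ _ => sq_nonneg _)]
    have h1 : ∑ l, dist ((x i).ofLp l) ((x j).ofLp l) ^ 2 = ∑ l, (x i).ofLp l ^ 2 +
        ∑ l, (x j).ofLp l ^ 2 - ∑ l, (x i).ofLp l * (2 * (x j).ofLp l) := by
      rw [← Finset.sum_add_distrib, ← Finset.sum_sub_distrib]
      refine Finset.sum_congr rfl fun l _ => ?_
      rw [Real.dist_eq, sq_abs]
      ring
    rw [h1]
    ring
  rw [hsum]
  constructor
  · intro h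
    have h1 : dist (x i) (x j) ≤ 1 := h.2
    have h2 : 0 ≤ dist (x i) (x j) := dist_nonneg
    nlinarith
  · intro h
    have h1 : 1 < dist (x i) (x j) := by
      by_contra h2
      exact h ⟨hij, not_lt.1 h2⟩
    have := hfar i j h1
    linarith

theorem dist_le_sign (r k : ℕ) : distRamsey r k ≤ signRamsey (r + 2) k := by
  rw [← good_iff]
  intro x
  have h := (sgood_iff (r + 2) k _).2 le_rfl (dgraph x) (signRank_dgraph x)
  rw [noMono_iff] at h
  obtain ⟨S, hS⟩ := h
  exact ⟨S, (homog_iff x S).2 hS⟩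

theorem two_le_sign (r k : ℕ) (hk : 2 ≤ k) : 2 ≤ signRamsey r k := by
  by_contra hcon
  have h1 : SGood r k 1 := (sgood_iff r k 1).2 (by omega)
  refine h1 ⊥ ⟨fun _ _ => 0, fun _ _ => 0, fun x y hxy => absurd (Subsingleton.elim x y) hxy⟩ ?_
  intro S
  have hS : S.card ≤ 1 := by
    simpa using Finset.card_le_univ S
  constructor
  · intro h
    have := h.card_eq
    omega
  · intro h
    have := h.card_eq
    omega

theorem sign_lower : ∃ c : ℝ, 0 < c ∧ ∀ r k : ℕ, 1 ≤ r → 2 ≤ k →
    c * min (k : ℝ) (√r) ≤ Real.log (signRamsey r k) := by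
  obtain ⟨c, hc, hlow⟩ := lower_bound
  refine ⟨min (c / 2) (1 / 3), by positivity, fun r k hr hk => ?_⟩
  have hlog2 : (1 / 2 : ℝ) ≤ Real.log 2 := by
    have := Real.log_two_gt_d9
    linarith
  rcases Nat.lt_or_ge r 3 with h3 | h3
  · have h1 : Real.log 2 ≤ Real.log (signRamsey r k) :=
      Real.log_le_log (by norm_num) (by exact_mod_cast two_le_sign r k hk)
    have h2 : √(r : ℝ) ≤ 1.5 := by
      rw [Real.sqrt_le_left (by norm_num)]
      have : (r : ℝ) ≤ 2 := by exact_mod_cast (by omega : r ≤ 2)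
      norm_num
      linarith
    calc min (c / 2) (1 / 3) * min (k : ℝ) (√r) ≤ 1 / 3 * 1.5 := by
          refine mul_le_mul (min_le_right _ _) ((min_le_right _ _).trans h2) ?_ (by norm_num)
          exact le_min (Nat.cast_nonneg _) (Real.sqrt_nonneg _)
      _ ≤ Real.log 2 := by linarith
      _ ≤ _ := h1
  · obtain ⟨r', rfl⟩ : ∃ r', r = r' + 2 := ⟨r - 2, by omega⟩
    have h1 := hlow r' k (by omega) hk
    have hd : 0 < distRamsey r' k := lt_of_lt_of_le (by omega) (le_distRamsey r' k)
    have h2 : Real.log (distRamsey r' k) ≤ Real.log (signRamsey (r' + 2) k) :=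
      Real.log_le_log (by exact_mod_cast hd) (by exact_mod_cast dist_le_sign r' k)
    have h4 : √((r' + 2 : ℕ) : ℝ) ≤ 2 * √(r' : ℝ) := by
      have h5 : (1 : ℝ) ≤ r' := by exact_mod_cast (by omega : 1 ≤ r')
      rw [Real.sqrt_le_left (by positivity), mul_pow, Real.sq_sqrt (by positivity)]
      push_cast
      linarith
    calc min (c / 2) (1 / 3) * min (k : ℝ) (√((r' + 2 : ℕ) : ℝ)) ≤ c / 2 * (2 * min (k : ℝ) (√r')) := by
          refine mul_le_mul (min_le_left _ _) ?_ (by positivity) (by positivity)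
          rw [mul_min_of_nonneg _ _ (by norm_num : (0 : ℝ) ≤ 2)]
          refine min_le_min ?_ h4
          have : (0 : ℝ) ≤ k := Nat.cast_nonneg _
          linarith
      _ = c * min (k : ℝ) (√r') := by ring
      _ ≤ _ := h1.trans h2

/-- The bound for all colourings. -/
theorem colouring_bound {n : ℕ} (G : SimpleGraph (Fin n)) (r k : ℕ) (hr : 1 ≤ r)
    (hG : SignRankLE G r) (hk : NoMono G k) :
    Real.log n ≤ 880 * √r * Real.log (2 + k / √r) ^ 2 := by
  classical
  have hr1 : (1 : ℝ) ≤ √(r : ℝ) := by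
    rw [Real.one_le_sqrt]
    exact_mod_cast hr
  have hr0 : (0 : ℝ) < √(r : ℝ) := by linarith
  have hk0 : (0 : ℝ) ≤ k := Nat.cast_nonneg _
  have hlog2 : (0.69 : ℝ) ≤ Real.log 2 := by
    have := Real.log_two_gt_d9
    linarith
  have hL : Real.log 2 ≤ Real.log (2 + k / √r) := Real.log_le_log (by norm_num) (by
    have : 0 ≤ (k : ℝ) / √r := by positivity
    linarith)
  rcases Nat.eq_zero_or_pos n with hn | hn
  · rw [hn]
    simp only [Nat.cast_zero, Real.log_zero]
    positivity
  rcases le_total (√(r : ℝ)) k with hrk | hrk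
  · obtain ⟨p, q, hpq⟩ := hG
    have h := ramsey_bound (V := Fin n) (fun x y => decide (G.Adj x y))
      (fun x y => by simp only [G.adj_comm]) p q
      (fun x y hxy h => (hpq x y hxy).1 (by simpa using h))
      (fun x y hxy h => (hpq x y hxy).2 (by simpa using h)) hr k hrk (by
        intro c S hS
        by_contra hcon
        push Not at hcon
        obtain ⟨T, hTS, hT⟩ := Finset.exists_subset_card_eq hcon
        cases c with
        | true =>
          refine (hk T).1 ⟨?_, hT⟩
          intro x hx y hy hxy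
          simpa using hS x (hTS hx) y (hTS hy) hxy
        | false =>
          refine (hk T).2 ⟨?_, hT⟩
          intro x hx y hy hxy
          rw [SimpleGraph.compl_adj]
          exact ⟨hxy, by simpa using hS x (hTS hx) y (hTS hy) hxy⟩)
    rw [Fintype.card_fin] at h
    have h1 : Real.log n ≤ 220 * √r * (1 + Real.log (k / √r)) ^ 2 := by
      rw [Real.log_le_iff_le_exp (by exact_mod_cast hn)]
      exact h
    refine h1.trans ?_
    have hx1 : 1 ≤ (k : ℝ) / √r := by rwa [one_le_div hr0]
    have h2 : 1 + Real.log (k / √r) ≤ 2 * Real.log (2 + k / √r) := by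
      have h3 : Real.log (k / √r) ≤ Real.log (2 + k / √r) :=
        Real.log_le_log (by linarith) (by linarith)
      have h4 : 1 ≤ Real.log (2 + k / √r) := by
        rw [Real.le_log_iff_exp_le (by linarith)]
        have := Real.exp_one_lt_d9
        linarith
      linarith
    have h3 : 0 ≤ 1 + Real.log (k / √r) := by
      have := Real.log_nonneg hx1
      linarith
    have h4 := pow_le_pow_left₀ h3 h2 2
    calc 220 * √r * (1 + Real.log (k / √r)) ^ 2 ≤ 220 * √r * (2 * Real.log (2 + k / √r)) ^ 2 :=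
          mul_le_mul_of_nonneg_left h4 (by positivity)
      _ = _ := by ring
  · -- large sign rank: the general bound
    have hlt : n < (k + k).choose k := by
      by_contra hcon
      push Not at hcon
      rcases Pool.Agent.H599R2.Ram.es G (k + k) k k rfl Finset.univ (by
        rw [Finset.card_univ, Fintype.card_fin]; exact hcon) with ⟨S, _, hS⟩ | ⟨S, _, hS⟩
      · obtain ⟨T, hTS, hT⟩ := Finset.exists_subset_card_eq
          (show k ≤ S.card by rw [hS.card_eq]; omega)
        exact (hk T).1 ⟨hS.isClique.subset (by exact_mod_cast hTS), hT⟩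
      · obtain ⟨T, hTS, hT⟩ := Finset.exists_subset_card_eq
          (show k ≤ S.card by rw [hS.card_eq]; omega)
        refine (hk T).2 ⟨?_, hT⟩
        intro i hi j hj hij
        rw [SimpleGraph.compl_adj]
        exact ⟨hij, hS.isIndepSet (hTS hi) (hTS hj) hij⟩
    have h4 : (n : ℝ) ≤ 2 ^ (k + k) := by
      have : n ≤ 2 ^ (k + k) := by
        refine hlt.le.trans ?_
        rw [← Nat.sum_range_choose]
        exact Finset.single_le_sum (f := fun m => (k + k).choose m) (fun _ _ => Nat.zero_le _)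
          (Finset.mem_range.2 (by omega))
      exact_mod_cast this
    have h5 : Real.log n ≤ 2 * k * Real.log 2 := by
      calc Real.log n ≤ Real.log (2 ^ (k + k)) :=
            Real.log_le_log (by exact_mod_cast hn) h4
        _ = _ := by
            rw [Real.log_pow]
            push_cast
            ring
    have h6 : Real.log 2 ≤ 0.7 := by
      have := Real.log_two_lt_d9
      linarith
    have h7 : (0.69 : ℝ) ^ 2 ≤ Real.log (2 + k / √r) ^ 2 :=
      pow_le_pow_left₀ (by norm_num) (hlog2.trans hL) 2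
    calc Real.log n ≤ 2 * k * Real.log 2 := h5
      _ ≤ 2 * √r * 0.7 := by
          refine mul_le_mul (by linarith) h6 (by linarith) (by positivity)
      _ ≤ 880 * √r * 0.69 ^ 2 := by nlinarith
      _ ≤ _ := mul_le_mul_of_nonneg_left h7 (by positivity)

theorem sign_upper (r k : ℕ) (hr : 1 ≤ r) :
    Real.log (signRamsey r k) ≤ 900 * √r * Real.log (2 + k / √r) ^ 2 := by
  have hr1 : (1 : ℝ) ≤ √(r : ℝ) := by
    rw [Real.one_le_sqrt]
    exact_mod_cast hr
  have hlog2 : (0.69 : ℝ) ≤ Real.log 2 := by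
    have := Real.log_two_gt_d9
    linarith
  have h6 : Real.log 2 ≤ 0.7 := by
    have := Real.log_two_lt_d9
    linarith
  have hL : Real.log 2 ≤ Real.log (2 + k / √r) := Real.log_le_log (by norm_num) (by
    have : 0 ≤ (k : ℝ) / √r := by positivity
    linarith)
  have h7 : (0.69 : ℝ) ^ 2 ≤ Real.log (2 + k / √r) ^ 2 :=
    pow_le_pow_left₀ (by norm_num) (hlog2.trans hL) 2
  have h8 : (0.47 : ℝ) ≤ √r * Real.log (2 + k / √r) ^ 2 := by
    have := mul_le_mul hr1 h7 (by norm_num) (by linarith)
    norm_num at this ⊢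
    linarith
  rcases Nat.lt_or_ge (signRamsey r k) 2 with h | h
  · have h1 : Real.log (signRamsey r k) ≤ 0 := by
      rcases Nat.eq_zero_or_pos (signRamsey r k) with h0 | h0
      · rw [h0]; simp
      · have : signRamsey r k = 1 := by omega
        rw [this]; simp
    refine h1.trans ?_
    positivity
  · obtain ⟨N, hN⟩ : ∃ N, signRamsey r k = N + 1 := ⟨signRamsey r k - 1, by omega⟩
    have h1 : ¬ SGood r k N := by
      intro h2
      have := (sgood_iff r k N).1 h2
      omega
    unfold SGood at h1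
    push Not at h1
    obtain ⟨G, hG, hno⟩ := h1
    have h2 := colouring_bound G r k hr hG hno
    have hN1 : 1 ≤ N := by omega
    have h3 : Real.log (signRamsey r k) ≤ Real.log 2 + Real.log N := by
      have hN0 : (0 : ℝ) < N := by exact_mod_cast hN1
      rw [← Real.log_mul (by norm_num) hN0.ne', hN]
      refine Real.log_le_log (by positivity) ?_
      have : (1 : ℝ) ≤ N := by exact_mod_cast hN1
      push_cast
      linarith
    linarith

/-- `√r (log (2 + k / √r)) ^ 2` in terms of `√r / k` -/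
theorem loglog_le (s k : ℝ) (hs : 0 < s) (hk : 0 < k) :
    s * Real.log (2 + k / s) ^ 2 ≤ 16 * k * √(2 * (s / k) ^ 2 + s / k) := by
  have h1 : (0 : ℝ) < 2 + k / s := by positivity
  have h2 : Real.log (2 + k / s) ≤ (2 + k / s) ^ (1 / 4 : ℝ) / (1 / 4) :=
    Real.log_le_rpow_div h1.le (by norm_num)
  have h0 : 0 ≤ Real.log (2 + k / s) := Real.log_nonneg (by
    have : 0 ≤ k / s := by positivity
    linarith)
  have h3 : Real.log (2 + k / s) ^ 2 ≤ 16 * √(2 + k / s) := by
    have h4 := pow_le_pow_left₀ h0 h2 2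
    refine h4.trans (le_of_eq ?_)
    rw [div_pow, ← Real.rpow_natCast ((2 + k / s) ^ (1 / 4 : ℝ)) 2, ← Real.rpow_mul h1.le,
      Real.sqrt_eq_rpow]
    norm_num
    ring
  have h5 : k * √(2 * (s / k) ^ 2 + s / k) = s * √(2 + k / s) := by
    have e1 : k * √(2 * (s / k) ^ 2 + s / k) = √(k ^ 2 * (2 * (s / k) ^ 2 + s / k)) := by
      rw [Real.sqrt_mul (by positivity), Real.sqrt_sq hk.le]
    have e2 : s * √(2 + k / s) = √(s ^ 2 * (2 + k / s)) := by
      rw [Real.sqrt_mul (by positivity), Real.sqrt_sq hs.le]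
    rw [e1, e2]
    congr 1
    field_simp
  calc s * Real.log (2 + k / s) ^ 2 ≤ s * (16 * √(2 + k / s)) :=
        mul_le_mul_of_nonneg_left h3 hs.le
    _ = 16 * (s * √(2 + k / s)) := by ring
    _ = 16 * k * √(2 * (s / k) ^ 2 + s / k) := by rw [← h5]; ring

theorem log_sr_nonneg (r k : ℕ) : 0 ≤ Real.log (signRamsey r k) := Real.log_natCast_nonneg _

theorem sign_growth (r : ℕ → ℕ) :
    Tendsto (fun k : ℕ => Real.log (signRamsey (r k) k) / k) atTop (𝓝 0) ↔
      Tendsto (fun k : ℕ => (r k : ℝ) / (k : ℝ) ^ 2) atTop (𝓝 0) := by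
  constructor
  · intro h
    obtain ⟨c, hc, hlow⟩ := sign_lower
    have h1 : Tendsto (fun k : ℕ => min (1 : ℝ) (√(r k) / k)) atTop (𝓝 0) := by
      have h2 : Tendsto (fun k : ℕ => c⁻¹ * (Real.log (signRamsey (r k) k) / k)) atTop (𝓝 0) := by
        simpa using h.const_mul c⁻¹
      refine squeeze_zero' (Eventually.of_forall fun k => by positivity) ?_ h2
      filter_upwards [eventually_ge_atTop 2] with k hk
      have hk0 : (0 : ℝ) < k := by
        have : 0 < k := by omega
        exact_mod_cast this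
      have h3 : c * min (k : ℝ) (√(r k)) ≤ Real.log (signRamsey (r k) k) := by
        rcases Nat.eq_zero_or_pos (r k) with h0 | h0
        · rw [h0, Nat.cast_zero, Real.sqrt_zero, min_eq_right hk0.le, mul_zero]
          exact log_sr_nonneg 0 k
        · exact hlow (r k) k h0 hk
      have h4 : min (1 : ℝ) (√(r k) / k) = min (k : ℝ) (√(r k)) / k := by
        rw [← min_div_div_right hk0.le, div_self hk0.ne']
      rw [h4, le_inv_mul_iff₀ hc, mul_div_assoc', div_le_div_iff_of_pos_right hk0]
      exact h3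
    have h2 : Tendsto (fun k : ℕ => √(r k : ℝ) / k) atTop (𝓝 0) := by
      refine h1.congr' ?_
      have h3 : ∀ᶠ k : ℕ in atTop, min (1 : ℝ) (√(r k) / k) < 1 :=
        h1.eventually_lt_const one_pos
      filter_upwards [h3] with k hk
      rcases min_lt_iff.mp hk with h4 | h4
      · exact absurd h4 (lt_irrefl _)
      · exact min_eq_right h4.le
    have h3 := h2.mul h2
    rw [zero_mul] at h3
    refine h3.congr fun k => ?_
    rw [div_mul_div_comm, Real.mul_self_sqrt (Nat.cast_nonneg _), sq]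
  · intro h
    let z : ℕ → ℝ := fun k => √((max (r k) 1 : ℕ) : ℝ) / k
    have hz2 : Tendsto (fun k => z k ^ 2) atTop (𝓝 0) := by
      have h1 : Tendsto (fun k : ℕ => (r k : ℝ) / (k : ℝ) ^ 2 + 1 / (k : ℝ) ^ 2) atTop (𝓝 0) := by
        have h2 : Tendsto (fun k : ℕ => 1 / (k : ℝ) ^ 2) atTop (𝓝 0) := by
          have := tendsto_one_div_atTop_nhds_zero_nat (𝕜 := ℝ)
          have h3 := this.mul this
          rw [zero_mul] at h3
          refine h3.congr fun k => ?_
          rw [div_mul_div_comm, one_mul, sq]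
        simpa using h.add h2
      refine squeeze_zero (fun k => by positivity) (fun k => ?_) h1
      simp only [z]
      rw [div_pow, Real.sq_sqrt (Nat.cast_nonneg _), ← add_div]
      apply div_le_div_of_nonneg_right _ (by positivity)
      exact_mod_cast max_le (by omega) (by omega)
    have hz : Tendsto z atTop (𝓝 0) := by
      have h1 := (Real.continuous_sqrt.tendsto 0).comp hz2
      rw [Real.sqrt_zero] at h1
      refine h1.congr fun k => ?_
      simp only [Function.comp_apply]
      exact Real.sqrt_sq (by simp only [z]; positivity)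
    have hmain : Tendsto (fun k : ℕ => 900 * (16 * √(2 * z k ^ 2 + z k))) atTop (𝓝 0) := by
      have h2 : Tendsto (fun k => 2 * z k ^ 2 + z k) atTop (𝓝 0) := by
        simpa using (hz2.const_mul 2).add hz
      have h3 := (Real.continuous_sqrt.tendsto 0).comp h2
      rw [Real.sqrt_zero] at h3
      simpa using (h3.const_mul 16).const_mul 900
    refine squeeze_zero' (Eventually.of_forall fun k =>
      div_nonneg (log_sr_nonneg _ _) (Nat.cast_nonneg _)) ?_ hmain
    filter_upwards [eventually_ge_atTop 2] with k hk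
    have hk0 : (0 : ℝ) < k := by
      have : 0 < k := by omega
      exact_mod_cast this
    set R := max (r k) 1 with hR
    have hR1 : 1 ≤ R := le_max_right _ _
    have hR0 : (0 : ℝ) < R := by exact_mod_cast hR1
    have hq : 0 < √(R : ℝ) := Real.sqrt_pos.mpr hR0
    have h1 : Real.log (signRamsey (r k) k) ≤ Real.log (signRamsey R k) := by
      apply Real.log_le_log
      · have := two_le_sign (r k) k hk
        exact_mod_cast lt_of_lt_of_le (by omega) this
      · exact_mod_cast signRamsey_mono k (le_max_left _ _)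
    have h2 := h1.trans (sign_upper R k hR1)
    have h3 := loglog_le (√(R : ℝ)) k hq hk0
    have hzk : z k = √(R : ℝ) / k := rfl
    rw [div_le_iff₀ hk0]
    calc Real.log (signRamsey (r k) k) ≤ 900 * √R * Real.log (2 + k / √R) ^ 2 := h2
      _ = 900 * (√R * Real.log (2 + k / √R) ^ 2) := by ring
      _ ≤ 900 * (16 * k * √(2 * (√R / k) ^ 2 + √R / k)) := by linarith
      _ = 900 * (16 * √(2 * z k ^ 2 + z k)) * k := by rw [hzk]; ring

/-- Large colourings without monochromatic `k`-set have sign rank at least `c k ^ 2`. -/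
theorem large_rank (θ : ℝ) (hθ : 0 < θ) : ∃ c : ℝ, 0 < c ∧ ∀ (k n r : ℕ) (G : SimpleGraph (Fin n)),
    2 ≤ n → NoMono G k → Real.exp (θ * k) ≤ n → SignRankLE G r → c * (k : ℝ) ^ 2 ≤ r := by
  set y0 : ℝ := min 1 (θ ^ 2 / (3 * (880 * 16) ^ 2)) with hy0
  have hy0pos : 0 < y0 := by positivity
  refine ⟨y0 ^ 2, by positivity, fun k n r G hn hno hexp hG => ?_⟩
  have hr : 1 ≤ r := by
    by_contra hcon
    have h0 : r = 0 := by omega
    subst h0
    obtain ⟨p, q, hpq⟩ := hG
    have hne : (⟨0, by omega⟩ : Fin n) ≠ ⟨1, by omega⟩ := by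
      intro h
      have := congrArg Fin.val h
      simp at this
    have h1 := hpq _ _ hne
    by_cases hadj : G.Adj (⟨0, by omega⟩ : Fin n) ⟨1, by omega⟩
    · have := h1.1 hadj
      simp at this
    · have := h1.2 hadj
      simp at this
  rcases Nat.eq_zero_or_pos k with hk | hk
  · subst hk
    simp
  have hk0 : (0 : ℝ) < k := by exact_mod_cast hk
  have hr1 : (1 : ℝ) ≤ √(r : ℝ) := by
    rw [Real.one_le_sqrt]
    exact_mod_cast hr
  have hr0 : (0 : ℝ) < √(r : ℝ) := by linarith
  have h1 := colouring_bound G r k hr hG hno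
  have h2 : θ * k ≤ Real.log n := by
    rw [Real.le_log_iff_exp_le (by exact_mod_cast (by omega : 0 < n))]
    exact hexp
  have h3 := loglog_le (√(r : ℝ)) k hr0 hk0
  set y : ℝ := √(r : ℝ) / k with hy
  have hypos : 0 < y := by positivity
  have h4 : θ ≤ 880 * 16 * √(2 * y ^ 2 + y) := by
    have h5 : θ * k ≤ 880 * 16 * √(2 * y ^ 2 + y) * k := by
      calc θ * k ≤ 880 * √r * Real.log (2 + k / √r) ^ 2 := h2.trans h1
        _ = 880 * (√r * Real.log (2 + k / √r) ^ 2) := by ring
        _ ≤ 880 * (16 * k * √(2 * y ^ 2 + y)) := by linarith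
        _ = _ := by ring
    exact le_of_mul_le_mul_right h5 hk0
  have h5 : y0 ≤ y := by
    by_contra hcon
    push Not at hcon
    have hy1 : y < 1 := lt_of_lt_of_le hcon (min_le_left _ _)
    have hy2 : y < θ ^ 2 / (3 * (880 * 16) ^ 2) := lt_of_lt_of_le hcon (min_le_right _ _)
    have h6 : √(2 * y ^ 2 + y) < θ / (880 * 16) := by
      rw [Real.sqrt_lt' (by positivity)]
      have h7 : 2 * y ^ 2 + y ≤ 3 * y := by nlinarith
      refine lt_of_le_of_lt h7 ?_
      rw [lt_div_iff₀ (by positivity)] at hy2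
      rw [div_pow, lt_div_iff₀ (by positivity)]
      linarith
    rw [lt_div_iff₀ (by norm_num)] at h6
    linarith
  have h6 : y0 * k ≤ √r := by
    rw [hy, le_div_iff₀ hk0] at h5
    exact h5
  calc y0 ^ 2 * (k : ℝ) ^ 2 = (y0 * k) ^ 2 := by ring
    _ ≤ √r ^ 2 := pow_le_pow_left₀ (by positivity) h6 2
    _ = r := Real.sq_sqrt (Nat.cast_nonneg _)

end Run7.h284.SR
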