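import Pool.Agent.Run7.h284.SR.Pair

set_option autoImplicit false

/-!
Nearly constant rectangles: removal of the genericity hypothesis and the version for subsets.
-/

namespace Run7.h284.SR

open Finset Matrix Filter Topology

/-- generic perturbation of the rows -/
theorem perturb {r : ℕ} {β κ : Type*} [Fintype β] [Fintype κ]
    (X : β → Matrix (Fin r) (Fin r) ℝ) (y : κ → Fin r → ℝ)
    (hy : ∀ b a j, X b a ⬝ᵥ y j ≠ 0) :
    ∃ X' : β → Matrix (Fin r) (Fin r) ℝ, (∀ b, (X' b).det ≠ 0) ∧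
      (∀ b a j, X' b a ⬝ᵥ y j ≠ 0) ∧ ∀ b a j, (0 < X' b a ⬝ᵥ y j ↔ 0 < X b a ⬝ᵥ y j) := by
  classical
  have h1 : ∀ b a j, ∀ᶠ ε : ℝ in 𝓝[≠] 0,
      ((X b + ε • (1 : Matrix (Fin r) (Fin r) ℝ)) a ⬝ᵥ y j ≠ 0 ∧
        (0 < (X b + ε • (1 : Matrix (Fin r) (Fin r) ℝ)) a ⬝ᵥ y j ↔ 0 < X b a ⬝ᵥ y j)) := by
    intro b a j
    have hc : Continuous fun ε : ℝ => (X b + ε • (1 : Matrix (Fin r) (Fin r) ℝ)) a ⬝ᵥ y j := by
      have e : (fun ε : ℝ => (X b + ε • (1 : Matrix (Fin r) (Fin r) ℝ)) a ⬝ᵥ y j) =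
          fun ε : ℝ => X b a ⬝ᵥ y j + ε * ((1 : Matrix (Fin r) (Fin r) ℝ) a ⬝ᵥ y j) := by
        funext ε
        show (X b a + ε • (1 : Matrix (Fin r) (Fin r) ℝ) a) ⬝ᵥ y j = _
        rw [add_dotProduct, smul_dotProduct, smul_eq_mul]
      rw [e]
      fun_prop
    have h0 : (X b + (0 : ℝ) • (1 : Matrix (Fin r) (Fin r) ℝ)) a ⬝ᵥ y j = X b a ⬝ᵥ y j := by
      rw [zero_smul, add_zero]
    refine Filter.Eventually.filter_mono nhdsWithin_le_nhds ?_
    rcases lt_or_gt_of_ne (hy b a j) with h | h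
    · have : ∀ᶠ ε : ℝ in 𝓝 0, (X b + ε • (1 : Matrix (Fin r) (Fin r) ℝ)) a ⬝ᵥ y j < 0 :=
        (hc.continuousAt (x := 0)).eventually_lt_const (by simpa [h0] using h)
      filter_upwards [this] with ε hε
      exact ⟨hε.ne, ⟨fun h' => by linarith, fun h' => by linarith⟩⟩
    · have : ∀ᶠ ε : ℝ in 𝓝 0, 0 < (X b + ε • (1 : Matrix (Fin r) (Fin r) ℝ)) a ⬝ᵥ y j :=
        (hc.continuousAt (x := 0)).eventually_const_lt (by simpa [h0] using h)
      filter_upwards [this] with ε hε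
      exact ⟨hε.ne', ⟨fun _ => h, fun _ => hε⟩⟩
  have h2 : ∀ b, ∀ᶠ ε : ℝ in 𝓝[≠] 0,
      (X b + ε • (1 : Matrix (Fin r) (Fin r) ℝ)).det ≠ 0 := by
    intro b
    have hfin : {ε : ℝ | (X b + ε • (1 : Matrix (Fin r) (Fin r) ℝ)).det = 0}.Finite := by
      have hp : (-(X b)).charpoly ≠ 0 := (Matrix.charpoly_monic _).ne_zero
      refine (Polynomial.finite_setOfPred_isRoot hp).subset ?_
      intro ε hε
      simp only [Set.mem_ofPred_eq] at hε ⊢
      rw [Polynomial.IsRoot.def, Matrix.eval_charpoly, ← hε]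
      congr 1
      rw [sub_neg_eq_add, add_comm]
      congr 1
      ext i j
      simp [Matrix.scalar_apply, Matrix.diagonal, Matrix.one_apply]
    have hcl : IsClosed ({ε : ℝ | (X b + ε • (1 : Matrix (Fin r) (Fin r) ℝ)).det = 0} \ {0}) :=
      (hfin.subset Set.sdiff_subset).isClosed
    have hmem : ({ε : ℝ | (X b + ε • (1 : Matrix (Fin r) (Fin r) ℝ)).det = 0} \ {0})ᶜ ∈ 𝓝 (0 : ℝ) :=
      hcl.isOpen_compl.mem_nhds (by simp)
    have h3 : ∀ᶠ ε : ℝ in 𝓝[≠] 0, ε ∈ ({ε : ℝ | (X b + ε • (1 : Matrix (Fin r) (Fin r) ℝ)).det = 0}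
        \ {0})ᶜ := Filter.Eventually.filter_mono nhdsWithin_le_nhds hmem
    filter_upwards [h3, self_mem_nhdsWithin] with ε h4 h5 h6
    exact h4 ⟨h6, h5⟩
  have h3 : ∀ᶠ ε : ℝ in 𝓝[≠] 0, (∀ b a j,
      ((X b + ε • (1 : Matrix (Fin r) (Fin r) ℝ)) a ⬝ᵥ y j ≠ 0 ∧
        (0 < (X b + ε • (1 : Matrix (Fin r) (Fin r) ℝ)) a ⬝ᵥ y j ↔ 0 < X b a ⬝ᵥ y j))) ∧
      ∀ b, (X b + ε • (1 : Matrix (Fin r) (Fin r) ℝ)).det ≠ 0 := by
    refine Filter.Eventually.and ?_ ?_
    · rw [Filter.eventually_all]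
      intro b
      rw [Filter.eventually_all]
      intro a
      rw [Filter.eventually_all]
      intro j
      exact h1 b a j
    · rw [Filter.eventually_all]
      exact h2
  obtain ⟨ε, h4, h5⟩ := h3.exists
  exact ⟨fun b => X b + ε • (1 : Matrix (Fin r) (Fin r) ℝ), h5, fun b a j => (h4 b a j).1,
    fun b a j => (h4 b a j).2⟩

/-- the version for all tuples of vectors -/
theorem pair_gen {r : ℕ} {β κ : Type*} [Fintype β] [Fintype κ]
    (X : β → Matrix (Fin r) (Fin r) ℝ) (y : κ → Fin r → ℝ)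
    (hy : ∀ b a j, X b a ⬝ᵥ y j ≠ 0) (hr : 0 < r) (u : ℝ) (hu : 4 ≤ u) (hβ : 0 < Fintype.card β)
    (hκ : 0 < Fintype.card κ) :
    ∃ (c : Bool) (S : Finset (β × Fin r)) (T : Finset κ),
      Real.exp (-(7 * (u * Real.sqrt (2 * r)))) *
        ((Fintype.card (β × Fin r) : ℝ) * Fintype.card κ) <
        ∑ i ∈ S, ∑ j ∈ T, (if decide (0 < X i.1 i.2 ⬝ᵥ y j) = c then (1 : ℝ)
          else 1 - Real.exp u / 3) := by
  obtain ⟨X', h1, h2, h3⟩ := perturb X y hy
  obtain ⟨c, S, T, h⟩ := pair_core X' h1 y h2 hr u hu hβ hκ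
  refine ⟨c, S, T, lt_of_lt_of_le h (le_of_eq ?_)⟩
  refine Finset.sum_congr rfl fun i _ => Finset.sum_congr rfl fun j _ => ?_
  have : decide (0 < X' i.1 i.2 ⬝ᵥ y j) = decide (0 < X i.1 i.2 ⬝ᵥ y j) :=
    decide_eq_decide.2 (h3 i.1 i.2 j)
  rw [this]

/-- Nearly constant rectangles in a finite rectangle of a sign matrix of rank `r`. -/
theorem rect {X Y : Type*} {r : ℕ} (f : X → Y → Bool) (p : X → Fin r → ℝ) (q : Y → Fin r → ℝ)
    (A : Finset X) (B : Finset Y) (hA : A.Nonempty) (hB : B.Nonempty)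
    (ht : ∀ x ∈ A, ∀ y ∈ B, f x y = true → 0 < p x ⬝ᵥ q y)
    (hf : ∀ x ∈ A, ∀ y ∈ B, f x y = false → p x ⬝ᵥ q y < 0)
    (u : ℝ) (hu : 4 ≤ u) :
    ∃ (c : Bool), ∃ S ⊆ A, ∃ T ⊆ B,
      Real.exp (-(7 * (u * Real.sqrt (2 * r)))) / 2 * ((A.card : ℝ) * B.card) <
        ∑ x ∈ S, ∑ y ∈ T, (if f x y = c then (1 : ℝ) else 1 - Real.exp u / 3) := by
  classical
  have hne : ∀ x ∈ A, ∀ y ∈ B, p x ⬝ᵥ q y ≠ 0 := by
    intro x hx y hy
    cases h : f x y
    · exact (hf x hx y hy h).ne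
    · exact (ht x hx y hy h).ne'
  have hdec : ∀ x ∈ A, ∀ y ∈ B, decide (0 < p x ⬝ᵥ q y) = f x y := by
    intro x hx y hy
    cases h : f x y
    · simpa using (hf x hx y hy h).le
    · simpa using ht x hx y hy h
  have hr : 0 < r := by
    obtain ⟨x, hx⟩ := hA
    obtain ⟨y, hy⟩ := hB
    rcases Nat.eq_zero_or_pos r with h | h
    · subst h
      exact absurd (by simp [dotProduct]) (hne x hx y hy)
    · exact h
  have hr1 : (1 : ℝ) ≤ r := by exact_mod_cast hr
  set τ : ℝ := u * Real.sqrt (2 * r) with hτ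
  have hsq : Real.sqrt (2 * r) * Real.sqrt (2 * r) = 2 * r := Real.mul_self_sqrt (by positivity)
  have hsq1 : 1 ≤ Real.sqrt (2 * r) := by
    rw [Real.one_le_sqrt]
    linarith
  have hApos : (0 : ℝ) < A.card := by exact_mod_cast hA.card_pos
  have hBpos : (0 : ℝ) < B.card := by exact_mod_cast hB.card_pos
  rcases Nat.lt_or_ge A.card r with hsmall | hlarge
  · -- few rows: use a single one
    obtain ⟨x0, hx0⟩ := hA
    have hexp : Real.exp (-(7 * τ)) < 1 / r := by
      rw [Real.exp_neg, ← one_div, one_div_lt_one_div (Real.exp_pos _) (by linarith)]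
      have h1 := Real.quadratic_le_exp_of_nonneg (x := 7 * τ) (by positivity)
      have h2 : τ ^ 2 = u ^ 2 * (2 * r) := by
        rw [hτ, mul_pow, sq (Real.sqrt (2 * r)), hsq]
      have h3 : 0 ≤ τ := by positivity
      have h4 : (16 : ℝ) * (2 * r) ≤ u ^ 2 * (2 * r) :=
        mul_le_mul_of_nonneg_right (by nlinarith) (by positivity)
      nlinarith
    have hsum : (B.filter (fun y => f x0 y = true)).card +
        (B.filter (fun y => f x0 y = false)).card = B.card := by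
      rw [← Finset.card_filter_add_card_filter_not (s := B) (fun y => f x0 y = true)]
      congr 2
      ext y
      simp
    have hkey : ∃ c : Bool, (B.card : ℝ) / 2 ≤ (B.filter (fun y => f x0 y = c)).card := by
      have : ((B.filter (fun y => f x0 y = true)).card : ℝ) +
        (B.filter (fun y => f x0 y = false)).card = B.card := by exact_mod_cast hsum
      by_contra hcon
      push Not at hcon
      have h1 := hcon true
      have h2 := hcon false
      linarith
    obtain ⟨c, hc⟩ := hkey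
    refine ⟨c, {x0}, by simpa using hx0, B.filter (fun y => f x0 y = c), filter_subset _ _, ?_⟩
    rw [Finset.sum_singleton, Finset.sum_congr rfl (g := fun _ => (1 : ℝ)) (fun y hy => by
      rw [if_pos (mem_filter.1 hy).2])]
    rw [Finset.sum_const, nsmul_eq_mul, mul_one]
    refine lt_of_lt_of_le ?_ hc
    have h2 : (A.card : ℝ) ≤ r := by exact_mod_cast hsmall.le
    have h3 : Real.exp (-(7 * τ)) * A.card < 1 := by
      calc Real.exp (-(7 * τ)) * A.card ≤ Real.exp (-(7 * τ)) * r :=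
            mul_le_mul_of_nonneg_left h2 (Real.exp_pos _).le
        _ < 1 / r * r := mul_lt_mul_of_pos_right hexp (by linarith)
        _ = 1 := by field_simp
    nlinarith
  · -- many rows: split into blocks
    set m := A.card / r with hm
    have hm1 : 1 ≤ m := by
      rw [hm]
      exact (Nat.one_le_div_iff hr).2 hlarge
    have hmr : m * r ≤ A.card := Nat.div_mul_le_self _ _
    have hmr2 : A.card < (m + 1) * r := by
      rw [hm]
      have h1 := Nat.div_add_mod A.card r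
      have h2 := Nat.mod_lt A.card hr
      nlinarith
    have hcard : Fintype.card (Fin m × Fin r) ≤ Fintype.card A := by
      rw [Fintype.card_prod, Fintype.card_fin, Fintype.card_fin, Fintype.card_coe]
      exact hmr
    obtain ⟨e⟩ := Function.Embedding.nonempty_of_card_le hcard
    obtain ⟨c, S, T, hST⟩ := pair_gen (β := Fin m) (κ := B)
      (fun b => Matrix.of fun a => p (e (b, a)).1) (fun j => q j.1)
      (fun b a j => hne _ (e (b, a)).2 _ j.2) hr u hu (by rw [Fintype.card_fin]; exact hm1)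
      (by simpa using hB.card_pos)
    refine ⟨c, S.map (e.trans (Function.Embedding.subtype _)), ?_,
      T.map (Function.Embedding.subtype _), ?_, ?_⟩
    · intro x hx
      rw [Finset.mem_map] at hx
      obtain ⟨i, _, rfl⟩ := hx
      exact (e i).2
    · intro y hy
      rw [Finset.mem_map] at hy
      obtain ⟨j, _, rfl⟩ := hy
      exact j.2
    · rw [Finset.sum_map]
      simp only [Finset.sum_map]
      refine lt_of_le_of_lt ?_ (lt_of_lt_of_le hST (le_of_eq ?_))
      · rw [Fintype.card_prod, Fintype.card_fin, Fintype.card_fin, Fintype.card_coe]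
        have h1 : (A.card : ℝ) ≤ 2 * ((m * r : ℕ) : ℝ) := by
          have : A.card ≤ 2 * (m * r) := by nlinarith
          exact_mod_cast this
        have h2 : 0 < Real.exp (-(7 * τ)) := Real.exp_pos _
        have h3 : (A.card : ℝ) * B.card ≤ 2 * ((m * r : ℕ) : ℝ) * B.card :=
          mul_le_mul_of_nonneg_right h1 hBpos.le
        nlinarith
      · refine Finset.sum_congr rfl fun i _ => Finset.sum_congr rfl fun j _ => ?_
        have := hdec _ (e (i.1, i.2)).2 _ j.2
        show (if decide (0 < p (e (i.1, i.2)).1 ⬝ᵥ q j.1) = c then (1 : ℝ) else _) = _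
        rw [this]
        rfl

end Run7.h284.SR
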