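import Pool.Agent.Run7.h284.SR.Step
import Pool.Agent.H599R2.Ram.ES

set_option autoImplicit false

/-!
Ramsey numbers of colourings of small sign rank: the recursion.
-/

namespace Run7.h284.SR

open Finset Matrix

theorem choose_bound (n i : ℕ) (l : ℝ) (hl : 0 < l) :
    (n.choose i : ℝ) * l ^ i ≤ (1 + l) ^ n := by
  rcases Nat.lt_or_ge n i with h | h
  · rw [Nat.choose_eq_zero_of_lt h, Nat.cast_zero, zero_mul]
    positivity
  · rw [add_comm, add_pow]
    have h1 := single_le_sum (s := range (n + 1))
      (f := fun m => l ^ m * 1 ^ (n - m) * (n.choose m : ℝ)) (fun m _ => by positivity)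
      (mem_range.2 (Nat.lt_succ_of_le h))
    refine le_trans (le_of_eq ?_) h1
    simp only [one_pow, mul_one]
    ring

theorem choose_exp (n i : ℕ) (s k : ℝ) (hs : 1 ≤ s) (hsk : s ≤ k) (hn : (n : ℝ) ≤ 2 * k)
    (hi : (i : ℝ) ≤ 8 * s) :
    (n.choose i : ℝ) ≤ Real.exp (8 * s * (1 + Real.log (k / s))) := by
  have hs0 : 0 < s := by linarith
  have hk0 : 0 < k := by linarith
  have hks : 1 ≤ k / s := by rwa [one_le_div hs0]
  have hlog : 0 ≤ Real.log (k / s) := Real.log_nonneg hks
  have h1 := choose_bound n i (s / k) (by positivity)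
  have h2 : (n.choose i : ℝ) ≤ (1 + s / k) ^ n * (k / s) ^ i := by
    have h3 : (s / k) ^ i * (k / s) ^ i = 1 := by
      rw [← mul_pow]
      have : s / k * (k / s) = 1 := by field_simp
      rw [this, one_pow]
    calc (n.choose i : ℝ) = n.choose i * (s / k) ^ i * (k / s) ^ i := by
          rw [mul_assoc, h3, mul_one]
      _ ≤ _ := mul_le_mul_of_nonneg_right h1 (by positivity)
  refine h2.trans ?_
  have h4 : (1 + s / k) ^ n ≤ Real.exp (2 * s) := by
    calc (1 + s / k) ^ n ≤ Real.exp (s / k) ^ n :=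
          pow_le_pow_left₀ (by positivity) (by rw [add_comm]; exact Real.add_one_le_exp _) _
      _ = Real.exp (n * (s / k)) := by rw [← Real.exp_nat_mul]
      _ ≤ _ := by
          refine Real.exp_le_exp.2 ?_
          calc (n : ℝ) * (s / k) ≤ 2 * k * (s / k) :=
                mul_le_mul_of_nonneg_right hn (by positivity)
            _ = 2 * s := by field_simp
  have h5 : (k / s) ^ i ≤ Real.exp (8 * s * Real.log (k / s)) := by
    calc (k / s) ^ i = Real.exp (i * Real.log (k / s)) := by
          rw [mul_comm, Real.exp_mul, Real.exp_log (by positivity), Real.rpow_natCast]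
      _ ≤ _ := Real.exp_le_exp.2 (mul_le_mul_of_nonneg_right hi hlog)
  calc (1 + s / k) ^ n * (k / s) ^ i ≤ Real.exp (2 * s) * Real.exp (8 * s * Real.log (k / s)) :=
        mul_le_mul h4 h5 (by positivity) (Real.exp_pos _).le
    _ = Real.exp (2 * s + 8 * s * Real.log (k / s)) := by rw [← Real.exp_add]
    _ ≤ _ := Real.exp_le_exp.2 (by nlinarith)

theorem base {V : Type} (f : V → V → Bool) (hsymm : ∀ x y, f x y = f y x) (W : Finset V)
    (a : Bool → ℕ) (hfree : Free f W a) (s k : ℝ) (hs : 1 ≤ s) (hsk : s ≤ k)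
    (hak : ∀ c, (a c : ℝ) ≤ k) (c : Bool) (hac : (a c : ℝ) ≤ 8 * s) :
    (W.card : ℝ) ≤ Real.exp (8 * s * (1 + Real.log (k / s))) := by
  classical
  let G : SimpleGraph V :=
    { Adj := fun x y => x ≠ y ∧ f x y = true
      symm := ⟨fun x y h => ⟨h.1.symm, by rw [hsymm]; exact h.2⟩⟩
      loopless := ⟨fun x h => h.1 rfl⟩ }
  have ha1 : ∀ c, 1 ≤ a c := fun c => by
    have := hfree c ∅ (empty_subset _) (fun x hx => absurd hx (notMem_empty x))
    rw [card_empty] at this
    exact this
  have hlt : W.card < ((a true - 1) + (a false - 1)).choose (a true - 1) := by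
    by_contra hcon
    push Not at hcon
    rcases Pool.Agent.H599R2.Ram.es G _ (a true - 1) (a false - 1) rfl W hcon with
      ⟨S, hS, hcl⟩ | ⟨S, hS, hcl⟩
    · have h1 : Hom f true S := fun x hx y hy hxy => (hcl.isClique hx hy hxy).2
      have := hfree true S hS h1
      rw [hcl.card_eq] at this
      have := ha1 true
      omega
    · have h1 : Hom f false S := by
        intro x hx y hy hxy
        have h2 := hcl.isIndepSet hx hy hxy
        cases h3 : f x y with
        | false => rfl
        | true => exact absurd ⟨hxy, h3⟩ h2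
      have := hfree false S hS h1
      rw [hcl.card_eq] at this
      have := ha1 false
      omega
  have hn : (((a true - 1) + (a false - 1) : ℕ) : ℝ) ≤ 2 * k := by
    have h1 : (((a true - 1) + (a false - 1) : ℕ) : ℝ) ≤ (a true : ℝ) + a false := by
      exact_mod_cast (by omega : (a true - 1) + (a false - 1) ≤ a true + a false)
    have h2 := hak true
    have h3 := hak false
    linarith
  have hle : (W.card : ℝ) ≤ (((a true - 1) + (a false - 1)).choose (a c - 1) : ℕ) := by
    have : W.card ≤ ((a true - 1) + (a false - 1)).choose (a c - 1) := by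
      cases c with
      | true => exact hlt.le
      | false => rw [← Nat.choose_symm_add]; exact hlt.le
    exact_mod_cast this
  refine hle.trans (choose_exp _ _ s k hs hsk hn ?_)
  have : ((a c - 1 : ℕ) : ℝ) ≤ a c := by exact_mod_cast Nat.sub_le _ _
  linarith

/-- numerical estimates for the recursion step -/
theorem num_step (s k : ℝ) (hs : 1 ≤ s) (hsk : s ≤ k) (q : ℝ) (hq0 : 0 ≤ q) (hqk : q ≤ k) :
    Real.log 12 + 7 * ((4 + Real.log (k / s)) * (1.4143 * s)) + (Real.log 2 +
      (q / (Real.exp (4 + Real.log (k / s)) / 3) + (4 * q / (Real.exp (4 + Real.log (k / s)) / 3)) *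
        Real.log (Real.exp (4 + Real.log (k / s)) / 3))) ≤ 44 * s * (1 + Real.log (k / s)) := by
  have hs0 : 0 < s := by linarith
  have hk0 : 0 < k := by linarith
  have hks : 1 ≤ k / s := by rwa [one_le_div hs0]
  set l := Real.log (k / s) with hl
  have hl0 : 0 ≤ l := Real.log_nonneg hks
  have hexp : Real.exp (4 + l) = Real.exp 4 * (k / s) := by
    rw [Real.exp_add, hl, Real.exp_log (by positivity)]
  have he4 : 54 ≤ Real.exp 4 := by
    have h1 := Real.exp_one_gt_d9
    have h2 : Real.exp 4 = Real.exp 1 ^ 4 := by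
      rw [← Real.exp_nat_mul]
      norm_num
    rw [h2]
    have h3 : (2.7182818283 : ℝ) ^ 4 ≤ Real.exp 1 ^ 4 := pow_le_pow_left₀ (by norm_num) h1.le 4
    norm_num at h3
    linarith
  set K : ℝ := Real.exp (4 + l) / 3 with hK
  have hKbig : 18 * (k / s) ≤ K := by
    rw [hK, hexp]
    have : 0 < k / s := by positivity
    nlinarith
  have hK0 : 0 < K := by positivity
  have hqK : q / K ≤ s / 18 := by
    rw [div_le_div_iff₀ hK0 (by norm_num)]
    calc q * 18 ≤ k * 18 := by linarith
      _ = s * (18 * (k / s)) := by field_simp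
      _ ≤ s * K := mul_le_mul_of_nonneg_left hKbig hs0.le
  have hlogK : Real.log K ≤ 4 + l := by
    rw [hK, Real.log_div (Real.exp_pos _).ne' (by norm_num), Real.log_exp]
    have : 0 ≤ Real.log 3 := Real.log_nonneg (by norm_num)
    linarith
  have hqK0 : 0 ≤ q / K := by positivity
  have h4q : 4 * q / K * Real.log K ≤ 4 * (s / 18) * (4 + l) := by
    have e : 4 * q / K = 4 * (q / K) := by ring
    rw [e]
    calc 4 * (q / K) * Real.log K ≤ 4 * (q / K) * (4 + l) :=
          mul_le_mul_of_nonneg_left hlogK (by positivity)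
      _ ≤ _ := mul_le_mul_of_nonneg_right (by linarith) (by linarith)
  have hlog24 : Real.log 12 + Real.log 2 ≤ 3.3 := by
    have h1 : Real.log (12 * 2) ≤ Real.log (2 ^ (4 : ℕ) * Real.exp (1/2)) := by
      refine Real.log_le_log (by norm_num) ?_
      have := Real.add_one_le_exp (1 / 2 : ℝ)
      norm_num
      linarith
    rw [Real.log_mul (by norm_num) (by norm_num),
      Real.log_mul (x := 2 ^ 4) (by norm_num) (by positivity), Real.log_exp, Real.log_pow] at h1
    have h2 := Real.log_two_lt_d9
    push_cast at h1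
    linarith
  have hsl : 0 ≤ s * l := by positivity
  nlinarith

theorem recur {V : Type} [DecidableEq V] {r : ℕ} (f : V → V → Bool)
    (hsymm : ∀ x y, f x y = f y x) (p q : V → Fin r → ℝ)
    (ht : ∀ x y, x ≠ y → f x y = true → 0 < p x ⬝ᵥ q y)
    (hf : ∀ x y, x ≠ y → f x y = false → p x ⬝ᵥ q y < 0)
    (hr : 1 ≤ r) (k : ℝ) (hrk : Real.sqrt r ≤ k) :
    ∀ (m : ℕ) (i : Bool → ℕ), i true + i false = m → ∀ (W : Finset V) (a : Bool → ℕ),
      Free f W a → (∀ c, (a c : ℝ) ≤ k) →
      (∀ c, (a c : ℝ) ≤ 8 * Real.sqrt r * (3 / 2) ^ (i c)) →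
      (W.card : ℝ) ≤ Real.exp (44 * Real.sqrt r * (1 + Real.log (k / Real.sqrt r)) * (1 + m)) := by
  set s := Real.sqrt r with hs
  have hs1 : 1 ≤ s := by
    rw [hs, Real.one_le_sqrt]
    exact_mod_cast hr
  have hs0 : 0 < s := by linarith
  have hks : 1 ≤ k / s := by rwa [one_le_div hs0]
  have hl0 : 0 ≤ Real.log (k / s) := Real.log_nonneg hks
  set Λ : ℝ := 1 + Real.log (k / s) with hΛ
  have hΛ1 : 1 ≤ Λ := by linarith
  have hX0 : 0 ≤ 44 * s * Λ := by positivity
  have hsqrt2 : Real.sqrt (2 * r) ≤ 1.4143 * s := by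
    rw [Real.sqrt_mul (by norm_num), hs]
    refine mul_le_mul_of_nonneg_right ?_ (by positivity)
    rw [Real.sqrt_le_left (by norm_num)]
    norm_num
  intro m
  induction m with
  | zero =>
    intro i hi W a hfree hak ha
    have h0 : i true = 0 := by omega
    have h1 := ha true
    rw [h0, pow_zero, mul_one] at h1
    refine (base f hsymm W a hfree s k hs1 hrk hak true h1).trans (Real.exp_le_exp.2 ?_)
    push_cast
    nlinarith
  | succ m ih =>
    intro i hi W a hfree hak ha
    have hbase : ∀ c, (a c : ℝ) ≤ 8 * s → (W.card : ℝ) ≤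
        Real.exp (44 * s * Λ * (1 + ((m + 1 : ℕ) : ℝ))) := by
      intro c hc
      refine (base f hsymm W a hfree s k hs1 hrk hak c hc).trans (Real.exp_le_exp.2 ?_)
      have : (0 : ℝ) ≤ (m + 1 : ℕ) := Nat.cast_nonneg _
      nlinarith [mul_nonneg hX0 this]
    by_cases hi0 : ∃ c, i c = 0
    · obtain ⟨c, hc⟩ := hi0
      have h1 := ha c
      rw [hc, pow_zero, mul_one] at h1
      exact hbase c h1
    push Not at hi0
    rcases Nat.lt_or_ge W.card 2 with hW | hW
    · have h1 : (W.card : ℝ) ≤ 1 := by exact_mod_cast (by omega : W.card ≤ 1)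
      refine h1.trans (Real.one_le_exp ?_)
      positivity
    set u : ℝ := 4 + Real.log (k / s) with hu
    obtain ⟨c, S, T, hS, hT, hdis, _, hSc, hTc, herr⟩ := pair_step f p q ht hf u (by linarith) W hW
    set K : ℝ := Real.exp u / 3 with hK
    have he4 : 54 ≤ Real.exp 4 := by
      have h1 := Real.exp_one_gt_d9
      have h2 : Real.exp 4 = Real.exp 1 ^ 4 := by
        rw [← Real.exp_nat_mul]
        norm_num
      rw [h2]
      have h3 : (2.7182818283 : ℝ) ^ 4 ≤ Real.exp 1 ^ 4 := pow_le_pow_left₀ (by norm_num) h1.le 4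
      norm_num at h3
      linarith
    have hK18 : 18 ≤ K := by
      have : Real.exp 4 ≤ Real.exp u := Real.exp_le_exp.2 (by linarith)
      rw [hK]
      linarith
    have hK0 : 0 < K := by linarith
    have hac1 : 1 ≤ a c := by
      have := hfree c ∅ (empty_subset _) (fun x hx => absurd hx (notMem_empty x))
      rw [card_empty] at this
      exact this
    set Q : ℕ := (a c + 1) / 2 with hQ
    have hQ1 : 1 ≤ Q := by omega
    have hQa : Q ≤ a c := by omega
    have hQr : (Q : ℝ) ≤ ((a c : ℝ) + 1) / 2 := by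
      rw [le_div_iff₀ (by norm_num)]
      exact_mod_cast (by omega : Q * 2 ≤ a c + 1)
    have hQk : (Q : ℝ) ≤ k := le_trans (by exact_mod_cast hQa) (hak c)
    -- the new exponents
    obtain ⟨j, hj⟩ : ∃ j, i c = j + 1 := ⟨i c - 1, by have := hi0 c; omega⟩
    set Z : ℝ := 8 * s * (3 / 2) ^ (i c) with hZ
    have hZj : 8 * s * (3 / 2) ^ j = 2 / 3 * Z := by
      rw [hZ, hj, pow_succ]
      ring
    have hZ12 : 12 ≤ Z := by
      rw [hZ, hj, pow_succ]
      have h1 : (1 : ℝ) ≤ (3 / 2) ^ j := one_le_pow₀ (by norm_num)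
      nlinarith [mul_le_mul hs1 h1 (by norm_num) (by linarith)]
    have haZ : (a c : ℝ) ≤ Z := ha c
    have hi' : (Function.update i c j) true + (Function.update i c j) false = m := by
      cases c with
      | true =>
        rw [Function.update_self, Function.update_of_ne (by decide)]
        omega
      | false =>
        rw [Function.update_self, Function.update_of_ne (by decide)]
        omega
    -- the general form of the step
    have hstep : ∀ (W' : Finset V) (b : ℕ) (t : ℝ), W' ⊆ W → (b : ℝ) ≤ k →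
        (b : ℝ) ≤ 2 / 3 * Z → (∀ P ⊆ W', Hom f c P → P.card < b) → t ≤ 44 * s * Λ →
        (W.card : ℝ) ≤ Real.exp t * W'.card →
        (W.card : ℝ) ≤ Real.exp (44 * s * Λ * (1 + ((m + 1 : ℕ) : ℝ))) := by
      intro W' b t hW' hbk hbZ hb ht' hle
      have h1 : Free f W' (Function.update a c b) := by
        intro c' P hP hPh
        rcases eq_or_ne c' c with h | h
        · subst h
          rw [Function.update_self]
          exact hb P hP hPh
        · rw [Function.update_of_ne h]
          exact hfree c' P (hP.trans hW') hPh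
      have h2 := ih (Function.update i c j) hi' W' (Function.update a c b) h1 (by
        intro c'
        rcases eq_or_ne c' c with h | h
        · subst h
          rw [Function.update_self]
          exact hbk
        · rw [Function.update_of_ne h]
          exact hak c') (by
        intro c'
        rcases eq_or_ne c' c with h | h
        · subst h
          rw [Function.update_self, Function.update_self, hZj]
          exact hbZ
        · rw [Function.update_of_ne h, Function.update_of_ne h]
          exact ha c')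
      calc (W.card : ℝ) ≤ Real.exp t * W'.card := hle
        _ ≤ Real.exp (44 * s * Λ) * Real.exp (44 * s * Λ * (1 + m)) :=
            mul_le_mul (Real.exp_le_exp.2 ht') h2 (Nat.cast_nonneg _) (Real.exp_pos _).le
        _ = _ := by
            rw [← Real.exp_add]
            congr 1
            push_cast
            ring
    have hnum := num_step s k hs1 hrk Q (Nat.cast_nonneg _) hQk
    rw [← hu, ← hK, ← hΛ] at hnum
    have hτ : 7 * (u * Real.sqrt (2 * r)) ≤ 7 * (u * (1.4143 * s)) := by
      have : u * Real.sqrt (2 * r) ≤ u * (1.4143 * s) :=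
        mul_le_mul_of_nonneg_left hsqrt2 (by linarith)
      linarith
    have hlogK : 0 ≤ Real.log K := Real.log_nonneg (by linarith)
    have hex0 : 0 ≤ (Q : ℝ) / K + (4 * Q / K) * Real.log K := by positivity
    have hlog2 : 0 ≤ Real.log 2 := Real.log_nonneg (by norm_num)
    have h12 : (12 : ℝ) = Real.exp (Real.log 12) := (Real.exp_log (by norm_num)).symm
    have h22 : (2 : ℝ) = Real.exp (Real.log 2) := (Real.exp_log (by norm_num)).symm
    rcases clique_step f hsymm c W S T hS hT hdis K (by linarith) herr a hfree Q hQ1 with h | h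
    · refine hstep S Q (Real.log 12 + 7 * (u * Real.sqrt (2 * r))) hS hQk ?_ h (by linarith) ?_
      · linarith
      · rw [Real.exp_add, ← h12]
        exact hSc
    · obtain ⟨T', hT', hTT', hP⟩ := h
      have hfl : (⌊4 * (Q : ℝ) / K⌋₊ : ℝ) ≤ 4 * Q / K := Nat.floor_le (by positivity)
      have hfl2 : (⌊4 * (Q : ℝ) / K⌋₊ : ℝ) ≤ 2 / 9 * Q := by
        refine hfl.trans ?_
        rw [div_le_iff₀ hK0]
        have : (0 : ℝ) ≤ Q := Nat.cast_nonneg _
        nlinarith
      have hQ0 : (0 : ℝ) ≤ Q := Nat.cast_nonneg _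
      have hb : ((a c + ⌊4 * (Q : ℝ) / K⌋₊ - Q : ℕ) : ℝ) ≤ a c + 2 / 9 * Q - Q := by
        rw [Nat.cast_sub (by omega)]
        push_cast
        linarith
      have hQ2 : (a c : ℝ) / 2 ≤ Q := by
        rw [div_le_iff₀ (by norm_num)]
        exact_mod_cast (by omega : a c ≤ Q * 2)
      refine hstep T' (a c + ⌊4 * (Q : ℝ) / K⌋₊ - Q)
        (Real.log 12 + 7 * (u * Real.sqrt (2 * r)) + (Real.log 2 + (Q / K + (4 * Q / K) * Real.log K)))
        (hT'.trans hT) ?_ ?_ ?_ (by linarith) ?_
      · have := hak c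
        linarith
      · linarith
      · intro P hPT hPh
        have := hP P hPT hPh
        omega
      · rw [Real.exp_add, Real.exp_add, Real.exp_add _ (_ + _), ← h12, ← h22]
        calc (W.card : ℝ) ≤ 12 * Real.exp (7 * (u * Real.sqrt (2 * r))) * T.card := hTc
          _ ≤ 12 * Real.exp (7 * (u * Real.sqrt (2 * r))) *
              (2 * Real.exp (Q / K + (4 * Q / K) * Real.log K) * T'.card) :=
              mul_le_mul_of_nonneg_left hTT' (by positivity)
          _ = _ := by ring

/-- Colourings of sign rank `r` without homogeneous `k`-sets. -/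
theorem ramsey_bound {V : Type} [Fintype V] {r : ℕ} (f : V → V → Bool)
    (hsymm : ∀ x y, f x y = f y x) (p q : V → Fin r → ℝ)
    (ht : ∀ x y, x ≠ y → f x y = true → 0 < p x ⬝ᵥ q y)
    (hf : ∀ x y, x ≠ y → f x y = false → p x ⬝ᵥ q y < 0)
    (hr : 1 ≤ r) (k : ℕ) (hrk : Real.sqrt r ≤ k)
    (hk : ∀ c, ∀ S : Finset V, Hom f c S → S.card < k) :
    (Fintype.card V : ℝ) ≤ Real.exp (220 * Real.sqrt r * (1 + Real.log (k / Real.sqrt r)) ^ 2) := by
  classical
  set s := Real.sqrt r with hs
  have hs1 : 1 ≤ s := by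
    rw [hs, Real.one_le_sqrt]
    exact_mod_cast hr
  have hs0 : 0 < s := by linarith
  have hks : 1 ≤ k / s := by rwa [one_le_div hs0]
  have hl0 : 0 ≤ Real.log (k / s) := Real.log_nonneg hks
  have h32 : 0.4 ≤ Real.log (3 / 2) := by
    have h1 : (2 : ℝ) ≤ Real.log ((3 / 2) ^ 5) := by
      rw [Real.le_log_iff_exp_le (by norm_num)]
      have h2 := Real.exp_one_lt_d9
      have h3 : Real.exp 2 = Real.exp 1 ^ 2 := by
        rw [← Real.exp_nat_mul]
        norm_num
      rw [h3]
      have h4 : Real.exp 1 ^ 2 ≤ (2.7182818286 : ℝ) ^ 2 :=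
        pow_le_pow_left₀ (Real.exp_pos _).le h2.le 2
      norm_num at h4 ⊢
      linarith
    rw [Real.log_pow] at h1
    push_cast at h1
    linarith
  set i : ℕ := ⌈Real.log (k / s) / Real.log (3 / 2)⌉₊ with hi
  have hik : (k : ℝ) / s ≤ (3 / 2) ^ i := by
    have h1 : Real.log (k / s) / Real.log (3 / 2) ≤ i := Nat.le_ceil _
    rw [div_le_iff₀ (by linarith)] at h1
    calc (k : ℝ) / s = Real.exp (Real.log (k / s)) := (Real.exp_log (by positivity)).symm
      _ ≤ Real.exp (i * Real.log (3 / 2)) := Real.exp_le_exp.2 h1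
      _ = (3 / 2) ^ i := by
          rw [mul_comm, Real.exp_mul, Real.exp_log (by norm_num), Real.rpow_natCast]
  have hi2 : (i : ℝ) ≤ Real.log (k / s) * 2.5 + 1 := by
    have h1 : (i : ℝ) < Real.log (k / s) / Real.log (3 / 2) + 1 :=
      Nat.ceil_lt_add_one (by positivity)
    have h2 : Real.log (k / s) / Real.log (3 / 2) ≤ Real.log (k / s) * 2.5 := by
      rw [div_le_iff₀ (by linarith)]
      nlinarith
    linarith
  have h := recur f hsymm p q ht hf hr k hrk (i + i) (fun _ => i) rfl univ (fun _ => k)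
    (fun c S _ hS => hk c S hS) (fun _ => le_rfl) (fun _ => by
      have : (k : ℝ) ≤ s * (3 / 2) ^ i := by
        rwa [div_le_iff₀' hs0] at hik
      have h0 : 0 ≤ s * (3 / 2) ^ i := by positivity
      linarith)
  rw [card_univ] at h
  refine h.trans (Real.exp_le_exp.2 ?_)
  push_cast
  have h1 : (1 : ℝ) + (i + i) ≤ 5 * (1 + Real.log (k / s)) := by linarith
  calc 44 * s * (1 + Real.log (k / s)) * (1 + (i + i)) ≤
      44 * s * (1 + Real.log (k / s)) * (5 * (1 + Real.log (k / s))) :=
        mul_le_mul_of_nonneg_left h1 (by positivity)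
    _ = _ := by ring

end Run7.h284.SR
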