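import Pool.Agent.Run7.h284.SR.Rect

set_option autoImplicit false

/-!
The pair step and the clique step for colourings of small sign rank.
-/

namespace Run7.h284.SR

open Finset Matrix

/-- all pairs of different elements of `S` have colour `c` -/
def Hom {V : Type*} (f : V → V → Bool) (c : Bool) (S : Finset V) : Prop :=
  ∀ x ∈ S, ∀ y ∈ S, x ≠ y → f x y = c

/-- inside `W` the sets of colour `c` have less than `a c` elements -/
def Free {V : Type*} (f : V → V → Bool) (W : Finset V) (a : Bool → ℕ) : Prop :=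
  ∀ c, ∀ S ⊆ W, Hom f c S → S.card < a c

theorem Hom.mono {V : Type*} {f : V → V → Bool} {c : Bool} {S T : Finset V} (h : Hom f c S)
    (hT : T ⊆ S) : Hom f c T := fun x hx y hy hxy => h x (hT hx) y (hT hy) hxy

/-- number of errors -/
theorem sum_err {X Y : Type*} (f : X → Y → Bool) (c : Bool) (S : Finset X) (T : Finset Y)
    (K : ℝ) :
    ∑ x ∈ S, ∑ y ∈ T, (if f x y = c then (1 : ℝ) else 1 - K) =
      (S.card : ℝ) * T.card - K * ∑ x ∈ S, ((T.filter (fun y => f x y ≠ c)).card : ℝ) := by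
  have h1 : ∀ x, ∑ y ∈ T, (if f x y = c then (1 : ℝ) else 1 - K) =
      T.card - K * ((T.filter (fun y => f x y ≠ c)).card : ℝ) := by
    intro x
    rw [card_filter, card_eq_sum_ones]
    push_cast
    rw [mul_sum, ← sum_sub_distrib]
    refine sum_congr rfl fun y _ => ?_
    by_cases h : f x y = c
    · simp [h]
    · simp [h]
  rw [sum_congr rfl (fun x _ => h1 x), sum_sub_distrib, sum_const, nsmul_eq_mul, ← mul_sum]

/-- The pair step. -/
theorem pair_step {V : Type*} {r : ℕ} (f : V → V → Bool) (p q : V → Fin r → ℝ)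
    (ht : ∀ x y, x ≠ y → f x y = true → 0 < p x ⬝ᵥ q y)
    (hf : ∀ x y, x ≠ y → f x y = false → p x ⬝ᵥ q y < 0)
    (u : ℝ) (hu : 4 ≤ u) (W : Finset V) (hW : 2 ≤ W.card) :
    ∃ (c : Bool) (S T : Finset V), S ⊆ W ∧ T ⊆ W ∧ Disjoint S T ∧ T.Nonempty ∧
      (W.card : ℝ) ≤ 12 * Real.exp (7 * (u * Real.sqrt (2 * r))) * S.card ∧
      (W.card : ℝ) ≤ 12 * Real.exp (7 * (u * Real.sqrt (2 * r))) * T.card ∧
      ∀ x ∈ S, ((T.filter (fun y => f x y ≠ c)).card : ℝ) ≤ 2 / (Real.exp u / 3) * T.card := by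
  classical
  obtain ⟨A, hAW, hA⟩ := exists_subset_card_eq (show W.card / 2 ≤ W.card by omega)
  set B := W \ A with hB
  have hBc : B.card = W.card - W.card / 2 := by rw [hB, card_sdiff_of_subset hAW, hA]
  have hBW : B ⊆ W := sdiff_subset
  have hAB : Disjoint A B := disjoint_sdiff
  have hA3 : (W.card : ℝ) ≤ 3 * A.card := by
    have : W.card ≤ 3 * A.card := by omega
    exact_mod_cast this
  have hB3 : (W.card : ℝ) ≤ 3 * B.card := by
    have : W.card ≤ 3 * B.card := by omega
    exact_mod_cast this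
  have hAne : A.Nonempty := by rw [← card_pos]; omega
  have hBne : B.Nonempty := by rw [← card_pos]; omega
  have hne : ∀ x ∈ A, ∀ y ∈ B, x ≠ y := fun x hx y hy h =>
    (disjoint_left.1 hAB hx) (h ▸ hy)
  obtain ⟨c, S, hS, T, hT, hST⟩ := rect f p q A B hAne hBne
    (fun x hx y hy => ht x y (hne x hx y hy)) (fun x hx y hy => hf x y (hne x hx y hy)) u hu
  rw [sum_err] at hST
  set K : ℝ := Real.exp u / 3 with hK
  set E : ℝ := Real.exp (-(7 * (u * Real.sqrt (2 * r)))) with hE
  have hK0 : 0 < K := by positivity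
  have hE0 : 0 < E := Real.exp_pos _
  have hAc : (0 : ℝ) < A.card := by exact_mod_cast hAne.card_pos
  have hBc' : (0 : ℝ) < B.card := by exact_mod_cast hBne.card_pos
  have hSA : (S.card : ℝ) ≤ A.card := by exact_mod_cast card_le_card hS
  have hTB : (T.card : ℝ) ≤ B.card := by exact_mod_cast card_le_card hT
  have herr0 : 0 ≤ ∑ x ∈ S, ((T.filter (fun y => f x y ≠ c)).card : ℝ) :=
    sum_nonneg fun _ _ => Nat.cast_nonneg _
  have hpos : 0 < (S.card : ℝ) * T.card := by
    have h1 : 0 < E / 2 * ((A.card : ℝ) * B.card) := by positivity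
    have h2 : 0 ≤ K * ∑ x ∈ S, ((T.filter (fun y => f x y ≠ c)).card : ℝ) :=
      mul_nonneg hK0.le herr0
    linarith
  have hS0 : (0 : ℝ) < S.card := by
    rcases (Nat.cast_nonneg (α := ℝ) S.card).lt_or_eq with h | h
    · exact h
    · rw [← h, zero_mul] at hpos
      exact absurd hpos (lt_irrefl _)
  have hT0 : (0 : ℝ) < T.card := by
    rcases (Nat.cast_nonneg (α := ℝ) T.card).lt_or_eq with h | h
    · exact h
    · rw [← h, mul_zero] at hpos
      exact absurd hpos (lt_irrefl _)
  have hbig : E / 2 * ((A.card : ℝ) * B.card) < (S.card : ℝ) * T.card := by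
    have h2 : 0 ≤ K * ∑ x ∈ S, ((T.filter (fun y => f x y ≠ c)).card : ℝ) :=
      mul_nonneg hK0.le herr0
    linarith
  -- the rows with few errors
  set S1 := S.filter (fun x => ((T.filter (fun y => f x y ≠ c)).card : ℝ) ≤ 2 / K * T.card) with hS1
  have hS1S : S1 ⊆ S := filter_subset _ _
  have hS1c : (S.card : ℝ) ≤ 2 * S1.card := by
    have h1 : ((S \ S1).card : ℝ) * (2 / K * T.card) ≤
        ∑ x ∈ S, ((T.filter (fun y => f x y ≠ c)).card : ℝ) := by
      calc ((S \ S1).card : ℝ) * (2 / K * T.card) = ∑ x ∈ S \ S1, (2 / K * T.card) := by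
            rw [sum_const, nsmul_eq_mul]
        _ ≤ ∑ x ∈ S \ S1, ((T.filter (fun y => f x y ≠ c)).card : ℝ) := by
            refine sum_le_sum fun x hx => ?_
            rw [mem_sdiff, hS1, mem_filter] at hx
            have : ¬ ((T.filter (fun y => f x y ≠ c)).card : ℝ) ≤ 2 / K * T.card :=
              fun h => hx.2 ⟨hx.1, h⟩
            exact (not_le.1 this).le
        _ ≤ _ := sum_le_sum_of_subset_of_nonneg sdiff_subset fun _ _ _ => Nat.cast_nonneg _
    have h2 : ((S \ S1).card : ℝ) + S1.card = S.card := by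
      exact_mod_cast card_sdiff_add_card_eq_card hS1S
    have h3 : K * ∑ x ∈ S, ((T.filter (fun y => f x y ≠ c)).card : ℝ) ≤ (S.card : ℝ) * T.card := by
      have h1 : 0 < E / 2 * ((A.card : ℝ) * B.card) := by positivity
      linarith
    have h4 : ((S \ S1).card : ℝ) * (2 * T.card) ≤ (S.card : ℝ) * T.card := by
      calc ((S \ S1).card : ℝ) * (2 * T.card) = K * (((S \ S1).card : ℝ) * (2 / K * T.card)) := by
            field_simp
        _ ≤ K * ∑ x ∈ S, ((T.filter (fun y => f x y ≠ c)).card : ℝ) :=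
            mul_le_mul_of_nonneg_left h1 hK0.le
        _ ≤ _ := h3
    have h5 : 2 * ((S \ S1).card : ℝ) ≤ S.card := by
      refine le_of_mul_le_mul_right ?_ hT0
      linarith
    linarith
  have hEE : Real.exp (7 * (u * Real.sqrt (2 * r))) * E = 1 := by
    rw [hE, ← Real.exp_add, add_neg_cancel, Real.exp_zero]
  set E' : ℝ := Real.exp (7 * (u * Real.sqrt (2 * r))) with hE'
  have hE'0 : 0 < E' := Real.exp_pos _
  refine ⟨c, S1, T, hS1S.trans (hS.trans hAW), hT.trans hBW,
    (hAB.mono (hS1S.trans hS) hT), by rw [← card_pos]; exact_mod_cast hT0, ?_, ?_, ?_⟩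
  · -- `|S| ≥ E / 2 |A|`
    have h1 : E / 2 * A.card < S.card := by
      have : E / 2 * A.card * B.card < S.card * B.card := by
        calc E / 2 * A.card * B.card = E / 2 * (A.card * B.card) := by ring
          _ < S.card * T.card := hbig
          _ ≤ S.card * B.card := mul_le_mul_of_nonneg_left hTB hS0.le
      exact lt_of_mul_lt_mul_right this hBc'.le
    calc (W.card : ℝ) ≤ 3 * A.card := hA3
      _ = 6 * E' * (E / 2 * A.card) := by
          have : 6 * E' * (E / 2 * A.card) = 3 * (E' * E) * A.card := by ring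
          rw [this, hEE, mul_one]
      _ ≤ 6 * E' * S.card := mul_le_mul_of_nonneg_left h1.le (by positivity)
      _ ≤ 6 * E' * (2 * S1.card) := mul_le_mul_of_nonneg_left hS1c (by positivity)
      _ = _ := by ring
  · have h1 : E / 2 * B.card < T.card := by
      have : A.card * (E / 2 * B.card) < A.card * T.card := by
        calc A.card * (E / 2 * B.card) = E / 2 * (A.card * B.card) := by ring
          _ < S.card * T.card := hbig
          _ ≤ A.card * T.card := mul_le_mul_of_nonneg_right hSA hT0.le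
      exact lt_of_mul_lt_mul_left this hAc.le
    calc (W.card : ℝ) ≤ 3 * B.card := hB3
      _ = 6 * E' * (E / 2 * B.card) := by
          have : 6 * E' * (E / 2 * B.card) = 3 * (E' * E) * B.card := by ring
          rw [this, hEE, mul_one]
      _ ≤ 6 * E' * T.card := mul_le_mul_of_nonneg_left h1.le (by positivity)
      _ ≤ _ := by nlinarith
  · intro x hx
    exact (mem_filter.1 hx).2

/-- number of small subsets -/
theorem card_small {V : Type*} [DecidableEq V] (Q : Finset V) (K : ℝ) (hK : 1 ≤ K) (t : ℝ) :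
    ((Q.powerset.filter (fun D => (D.card : ℝ) ≤ t)).card : ℝ) ≤
      Real.exp (Q.card / K + t * Real.log K) := by
  have hK0 : 0 < K := by linarith
  have hlog : 0 ≤ Real.log K := Real.log_nonneg hK
  have h1 : ∀ D ∈ Q.powerset.filter (fun D => (D.card : ℝ) ≤ t),
      (1 : ℝ) ≤ (1 / K) ^ D.card * 1 ^ (Q.card - D.card) * Real.exp (t * Real.log K) := by
    intro D hD
    rw [mem_filter] at hD
    rw [one_pow, mul_one, one_div, inv_pow, inv_mul_eq_div, one_le_div (by positivity)]
    calc K ^ D.card = Real.exp (D.card * Real.log K) := by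
          rw [mul_comm, Real.exp_mul, Real.exp_log hK0, Real.rpow_natCast]
      _ ≤ _ := Real.exp_le_exp.2 (mul_le_mul_of_nonneg_right hD.2 hlog)
  calc ((Q.powerset.filter (fun D => (D.card : ℝ) ≤ t)).card : ℝ)
      = ∑ D ∈ Q.powerset.filter (fun D => (D.card : ℝ) ≤ t), (1 : ℝ) := by
        rw [sum_const, nsmul_eq_mul, mul_one]
    _ ≤ ∑ D ∈ Q.powerset.filter (fun D => (D.card : ℝ) ≤ t),
        (1 / K) ^ D.card * 1 ^ (Q.card - D.card) * Real.exp (t * Real.log K) := sum_le_sum h1
    _ ≤ ∑ D ∈ Q.powerset, (1 / K) ^ D.card * 1 ^ (Q.card - D.card) * Real.exp (t * Real.log K) :=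
        sum_le_sum_of_subset_of_nonneg (filter_subset _ _) fun _ _ _ => by positivity
    _ = (1 / K + 1) ^ Q.card * Real.exp (t * Real.log K) := by
        rw [← sum_mul, Finset.sum_pow_mul_eq_add_pow]
    _ ≤ Real.exp (1 / K) ^ Q.card * Real.exp (t * Real.log K) := by
        refine mul_le_mul_of_nonneg_right ?_ (Real.exp_pos _).le
        exact pow_le_pow_left₀ (by positivity) (Real.add_one_le_exp _) _
    _ = _ := by
        rw [← Real.exp_nat_mul, ← Real.exp_add]
        congr 1
        ring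

/-- The clique step. -/
theorem clique_step {V : Type*} [DecidableEq V] (f : V → V → Bool) (hsymm : ∀ x y, f x y = f y x)
    (c : Bool) (W S T : Finset V) (hS : S ⊆ W) (hT : T ⊆ W) (hdis : Disjoint S T)
    (K : ℝ) (hK : 1 ≤ K)
    (herr : ∀ x ∈ S, ((T.filter (fun y => f x y ≠ c)).card : ℝ) ≤ 2 / K * T.card)
    (a : Bool → ℕ) (hfree : Free f W a) (q : ℕ) (hq : 1 ≤ q) :
    (∀ Q ⊆ S, Hom f c Q → Q.card < q) ∨
    ∃ T' ⊆ T, (T.card : ℝ) ≤ 2 * Real.exp (q / K + (4 * q / K) * Real.log K) * T'.card ∧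
      ∀ P ⊆ T', Hom f c P → P.card + q < a c + ⌊4 * (q : ℝ) / K⌋₊ := by
  have hK0 : 0 < K := by linarith
  have hq0 : (0 : ℝ) < q := by exact_mod_cast hq
  by_cases hcase : ∀ Q ⊆ S, Hom f c Q → Q.card < q
  · exact Or.inl hcase
  right
  push Not at hcase
  obtain ⟨Q0, hQ0S, hQ0, hQ0c⟩ := hcase
  obtain ⟨Q, hQQ0, hQc⟩ := exists_subset_card_eq hQ0c
  have hQS : Q ⊆ S := hQQ0.trans hQ0S
  have hQ : Hom f c Q := hQ0.mono hQQ0
  -- the neighbourhoods in the other colour
  let D : V → Finset V := fun y => Q.filter (fun x => f x y ≠ c)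
  have hdc : ∑ y ∈ T, ((D y).card : ℝ) ≤ q * (2 / K * T.card) := by
    have h1 : ∑ y ∈ T, ((D y).card : ℝ) =
        ∑ x ∈ Q, ((T.filter (fun y => f x y ≠ c)).card : ℝ) := by
      have : ∑ y ∈ T, (D y).card = ∑ x ∈ Q, (T.filter (fun y => f x y ≠ c)).card := by
        simp only [D, card_filter]
        rw [sum_comm]
      exact_mod_cast this
    rw [h1]
    calc ∑ x ∈ Q, ((T.filter (fun y => f x y ≠ c)).card : ℝ) ≤ ∑ _x ∈ Q, (2 / K * T.card) :=
          sum_le_sum fun x hx => herr x (hQS hx)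
      _ = _ := by rw [sum_const, nsmul_eq_mul, hQc]
  set T1 := T.filter (fun y => ((D y).card : ℝ) ≤ 4 * q / K) with hT1
  have hT1T : T1 ⊆ T := filter_subset _ _
  have hT1c : (T.card : ℝ) ≤ 2 * T1.card := by
    have h1 : ((T \ T1).card : ℝ) * (4 * q / K) ≤ q * (2 / K * T.card) := by
      calc ((T \ T1).card : ℝ) * (4 * q / K) = ∑ y ∈ T \ T1, (4 * q / K) := by
            rw [sum_const, nsmul_eq_mul]
        _ ≤ ∑ y ∈ T \ T1, ((D y).card : ℝ) := by
            refine sum_le_sum fun y hy => ?_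
            rw [mem_sdiff, hT1, mem_filter] at hy
            have : ¬ ((D y).card : ℝ) ≤ 4 * q / K := fun h => hy.2 ⟨hy.1, h⟩
            exact (not_le.1 this).le
        _ ≤ ∑ y ∈ T, ((D y).card : ℝ) :=
            sum_le_sum_of_subset_of_nonneg sdiff_subset fun _ _ _ => Nat.cast_nonneg _
        _ ≤ _ := hdc
    have h2 : ((T \ T1).card : ℝ) + T1.card = T.card := by
      exact_mod_cast card_sdiff_add_card_eq_card hT1T
    have h3 : ((T \ T1).card : ℝ) * (4 * q / K) = (2 * (T \ T1).card) * (q * (2 / K)) := by ring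
    have h4 : (q : ℝ) * (2 / K * T.card) = T.card * (q * (2 / K)) := by ring
    rw [h3, h4] at h1
    have h5 : 2 * ((T \ T1).card : ℝ) ≤ T.card := le_of_mul_le_mul_right h1 (by positivity)
    linarith
  -- pigeonhole
  set N := Q.powerset.filter (fun D => (D.card : ℝ) ≤ 4 * q / K) with hN
  have hmaps : ∀ y ∈ T1, D y ∈ N := by
    intro y hy
    rw [hN, mem_filter, mem_powerset]
    exact ⟨filter_subset _ _, (mem_filter.1 hy).2⟩
  have hNne : N.Nonempty := ⟨∅, by
    rw [hN, mem_filter, mem_powerset]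
    refine ⟨empty_subset _, ?_⟩
    rw [card_empty, Nat.cast_zero]
    positivity⟩
  obtain ⟨D0, hD0, hD0c⟩ : ∃ D0 ∈ N, (T1.card : ℝ) ≤ N.card * (T1.filter (fun y => D y = D0)).card := by
    by_contra hcon
    push Not at hcon
    have h1 : (T1.card : ℝ) = ∑ D0 ∈ N, ((T1.filter (fun y => D y = D0)).card : ℝ) := by
      exact_mod_cast card_eq_sum_card_fiberwise hmaps
    have hNc : (0 : ℝ) < N.card := by exact_mod_cast hNne.card_pos
    have h2 : ∑ D0 ∈ N, ((N.card : ℝ) * (T1.filter (fun y => D y = D0)).card) <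
        ∑ _D0 ∈ N, (T1.card : ℝ) := sum_lt_sum_of_nonempty hNne hcon
    rw [← mul_sum, ← h1, sum_const, nsmul_eq_mul] at h2
    exact lt_irrefl _ h2
  refine ⟨T1.filter (fun y => D y = D0), (filter_subset _ _).trans hT1T, ?_, ?_⟩
  · have h1 := card_small Q K hK (4 * q / K)
    rw [hQc, ← hN] at h1
    calc (T.card : ℝ) ≤ 2 * T1.card := hT1c
      _ ≤ 2 * (N.card * (T1.filter (fun y => D y = D0)).card) := by linarith
      _ ≤ 2 * (Real.exp (q / K + 4 * q / K * Real.log K) *
          (T1.filter (fun y => D y = D0)).card) := by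
          have := mul_le_mul_of_nonneg_right h1
            (Nat.cast_nonneg (α := ℝ) (T1.filter (fun y => D y = D0)).card)
          linarith
      _ = _ := by ring
  · intro P hP hPh
    have hD0Q : D0 ⊆ Q := mem_powerset.1 (mem_filter.1 hD0).1
    have hD0l : D0.card ≤ ⌊4 * (q : ℝ) / K⌋₊ := Nat.le_floor (mem_filter.1 hD0).2
    have hPT : P ⊆ T := hP.trans ((filter_subset _ _).trans hT1T)
    have hPQ : Disjoint P (Q \ D0) :=
      ((hdis.mono (sdiff_subset.trans hQS) hPT).symm)
    have hcross : ∀ x ∈ Q \ D0, ∀ y ∈ P, f x y = c := by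
      intro x hx y hy
      rw [mem_sdiff] at hx
      have hy1 := (mem_filter.1 (hP hy)).2
      by_contra hne
      apply hx.2
      rw [← hy1]
      exact mem_filter.2 ⟨hx.1, hne⟩
    have hun : Hom f c (P ∪ (Q \ D0)) := by
      intro x hx y hy hxy
      rw [mem_union] at hx hy
      rcases hx with hx | hx <;> rcases hy with hy | hy
      · exact hPh x hx y hy hxy
      · rw [hsymm]; exact hcross y hy x hx
      · exact hcross x hx y hy
      · exact hQ x (mem_sdiff.1 hx).1 y (mem_sdiff.1 hy).1 hxy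
    have hlt := hfree c _ (union_subset (hPT.trans hT) (sdiff_subset.trans (hQS.trans hS))) hun
    rw [card_union_of_disjoint hPQ, card_sdiff_of_subset hD0Q, hQc] at hlt
    have : D0.card ≤ q := by rw [← hQc]; exact card_le_card hD0Q
    omega

end Run7.h284.SR
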